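import Pool.Agent.Full.Disc.Pos
import Pool.Agent.Full.Def.SCz

/-!
# Tangles of regions which are simply connected relative to an interior end `z`

* `Glu.next_trans_z` : the boundary half edges of a connected part, except `z`, lie on one cycle;
* `Glu.side_z` : the side function of a strand which does not end at `z`;
* `Glu.side_pos_z`, `Glu.noncross_pos_z` : strands which do not end at `z` do not cross each other.
-/

set_option autoImplicit false

namespace Full
open Function Relation

variable {τ : Type*} {T : Finset τ} {g : Half τ → Half τ} {z : Half τ}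

/-- `x` is a boundary half edge, not `z`, in the part of the region which contains `b` -/
structure OnZ (T : Finset τ) (g : Half τ → Half τ) (z b x : Half τ) : Prop extends On T g b x where
  ne : x ≠ z

namespace Glu
variable (hG : Glu T g)
include hG

theorem next_trans_z (hz : g z = z) (hS : SCz T g z) {x y : Half τ} (hx : Bd T g x)
    (hy : Bd T g y) (hxz : x ≠ z) (hyz : y ≠ z)
    (hxy : TConn T g x.1 y.1) : ∃ k < minimalPeriod (next g) x, (next g)^[k] x = y := by
  classical
  by_contra hno
  have hno' : ∀ k, (next g)^[k] x ≠ y := by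
    intro k hk
    apply hno
    refine ⟨k % minimalPeriod (next g) x, Nat.mod_lt _
      (minimalPeriod_pos_of_mem_periodicPts (hG.next_periodic hx)), ?_⟩
    rw [iterate_mod_minimalPeriod_eq, hk]
  obtain ⟨χ, h1, h2, h3⟩ := hG.chain hxy
  set χ' : Half τ → ZMod 2 := fun w => χ w + ((if w = x then 1 else 0) + if w = y then 1 else 0)
    with hχ'
  have g1 : ∀ w, χ' (g w) = χ' w := by
    intro w
    have e1 : (g w = x) = (w = x) := by
      apply propext
      constructor
      · intro h; rw [← hG.inv w, h, hx.2]
      · rintro rfl; exact hx.2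
    have e2 : (g w = y) = (w = y) := by
      apply propext
      constructor
      · intro h; rw [← hG.inv w, h, hy.2]
      · rintro rfl; exact hy.2
    simp only [hχ', h1, e1, e2]
  have g2 : ∀ t ∈ T, ∑ d, χ' (t, d) = 0 := by
    intro t _
    have s : ∀ w : Half τ, ∑ d', (if ((t, d') : Half τ) = w then (1 : ZMod 2) else 0)
        = if t = w.1 then 1 else 0 := by
      rintro ⟨s, d⟩
      by_cases hts : t = s
      · subst hts
        rw [if_pos rfl]
        have : ∀ d', ((t, d') : Half τ) = (t, d) ↔ d' = d := fun d' => by simp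
        simp only [this, Finset.sum_ite_eq', Finset.mem_univ, if_true]
      · rw [if_neg hts]
        refine Finset.sum_eq_zero fun d' _ => ?_
        rw [if_neg]
        rintro h; exact hts (congrArg Prod.fst h)
    simp only [hχ']
    rw [Finset.sum_add_distrib, Finset.sum_add_distrib, h3 t, s x, s y]
    exact CharTwo.add_self_eq_zero _
  have g3 : χ' z = 0 := by
    simp only [hχ', h2 z hz, if_neg (Ne.symm hxz), if_neg (Ne.symm hyz), add_zero]
  obtain ⟨c, hc, hcr⟩ := hS χ' g1 g2 g3
  set n := minimalPeriod (next g) x with hn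
  have hnpos : 0 < n := minimalPeriod_pos_of_mem_periodicPts (hG.next_periodic hx)
  have h5 := hG.iter_next hc hcr hx n
  have h6 : (next g)^[n] x = x := iterate_minimalPeriod
  rw [h6] at h5
  have h7 : ∑ i ∈ Finset.range n, χ' ((next g)^[i] x) = 1 := by
    rw [Finset.sum_eq_single 0]
    · simp only [iterate_zero, id_eq, hχ', h2 x hx.2, if_true, zero_add]
      rw [if_neg (by have := hno' 0; simpa using this), add_zero]
    · intro i hi hi0
      have hb := hG.bd_iter hx i
      have hne : (next g)^[i] x ≠ x := by
        intro h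
        have : IsPeriodicPt (next g) i x := h
        have := this.minimalPeriod_le (by omega)
        have := Finset.mem_range.1 hi
        omega
      simp only [hχ', h2 _ hb.2, if_neg hne, if_neg (hno' i), add_zero]
    · intro h; exact absurd (Finset.mem_range.2 hnpos) h
  rw [h7] at h5
  have h8 : (1 : ZMod 2) = 0 := by linear_combination -h5
  exact absurd h8 (by decide)

variable [DecidableEq τ]

/-- **the side function of a strand which does not pass `z`** -/
theorem side_z (hS : SCz T g z) (ω : Finset τ) {p : Half τ} (hp : Bd T g p)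
    (hpz : ¬ Conn (mate ω) g p z) :
    ∃ c : Half τ → ZMod 2, Corner g c ∧
      (∀ x : Half τ, x.1 ∈ T → ¬ Conn (mate ω) g p x → c (rho x) = c x) ∧
      (∀ x : Half τ, x.1 ∈ T → Conn (mate ω) g p x → c (rho x) = c x + 1) ∧
      (∀ x y : Half τ, x.1 ∈ T → ¬ Conn (mate ω) g p x → Conn (mate ω) g x y → c y = c x) ∧
      (∀ x, Bd T g x → c (next g x) =
        c x + if x = p ∨ x = other (mate ω) g p then 1 else 0) := by
  classical
  obtain ⟨χ, h1, h2, h3, h4, h5⟩ := hG.cross_closed ω p
  obtain ⟨c, hc, hcr⟩ := hS χ h3 (fun t _ => h5 t) (h2 z hpz)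
  have r0 : ∀ x : Half τ, x.1 ∈ T → ¬ Conn (mate ω) g p x → c (rho x) = c x :=
    fun x hx hn => by rw [hcr x hx, h2 x hn, add_zero]
  have r1 : ∀ x : Half τ, x.1 ∈ T → Conn (mate ω) g p x → c (rho x) = c x + 1 :=
    fun x hx hn => by rw [hcr x hx, h1 x hn]
  refine ⟨c, hc, r0, r1, fun x y hx hn hxy => ?_, fun x hx => ?_⟩
  · have key : y.1 ∈ T ∧ ¬ Conn (mate ω) g p y ∧ c y = c x := by
      induction hxy with
      | refl => exact ⟨hx, hn, rfl⟩
      | @tail y w _ hyz ih =>
        obtain ⟨i1, i2, i3⟩ := ih
        rcases hyz with rfl | rfl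
        · have j2 : ¬ Conn (mate ω) g p (mate ω y) := fun h => i2 <| by
            have := h.trans (Conn.m_step (g := g) (mate ω y))
            rwa [mate_mate] at this
          refine ⟨i1, j2, ?_⟩
          rw [← i3]
          rcases mate_cases ω y with e | e
          · rw [e]; exact r0 y i1 i2
          · have h := r0 (mate ω y) i1 j2
            rw [e] at h; exact h.symm
        · have j2 : ¬ Conn (mate ω) g p (g y) := fun h => i2 <| by
            have := h.trans (Conn.g_step (m := mate ω) (g y))
            rwa [hG.inv] at this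
          refine ⟨hG.mem y i1, j2, ?_⟩
          rw [← i3]
          by_cases hg : g y = y
          · rw [hg]
          · rw [hc y hg]; exact r0 y i1 i2
    exact key.2.2
  · rw [hG.corner_next hc hx.2, hcr x hx.1]
    congr 1
    have := hG.conn_iff (ω := ω) hp hx
    by_cases h : Conn (mate ω) g p x
    · rw [h1 x h, if_pos (this.1 h)]
    · rw [h2 x h, if_neg (fun h' => h (this.2 h'))]

omit [DecidableEq τ] in
theorem pos_spec_z' (hz : g z = z) (hS : SCz T g z) {b x : Half τ} (hb : Bd T g b) (hbz : b ≠ z)
    (hx : OnZ T g z b x) :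
    (next g)^[bpos g b x] b = x ∧ bpos g b x < minimalPeriod (next g) b := by
  classical
  obtain ⟨k, hk, h⟩ := hG.next_trans_z hz hS hb hx.bd hbz hx.ne hx.conn
  have hex : ∃ k, (next g)^[k] b = x := ⟨k, h⟩
  unfold bpos
  rw [dif_pos hex]
  exact ⟨Nat.find_spec hex, lt_of_le_of_lt (Nat.find_min' hex h) hk⟩

omit [DecidableEq τ] in
theorem pos_spec_z (hz : g z = z) (hS : SCz T g z) {b x : Half τ} (hb : Bd T g b) (hbz : b ≠ z)
    (hx : OnZ T g z b x) : (next g)^[bpos g b x] b = x := (hG.pos_spec_z' hz hS hb hbz hx).1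

omit [DecidableEq τ] in
theorem pos_lt_z (hz : g z = z) (hS : SCz T g z) {b x : Half τ} (hb : Bd T g b) (hbz : b ≠ z)
    (hx : OnZ T g z b x) : bpos g b x < minimalPeriod (next g) b :=
  (hG.pos_spec_z' hz hS hb hbz hx).2

omit [DecidableEq τ] in
theorem pos_inj_z (hz : g z = z) (hS : SCz T g z) {b x y : Half τ} (hb : Bd T g b) (hbz : b ≠ z)
    (hx : OnZ T g z b x) (hy : OnZ T g z b y) (h : bpos g b x = bpos g b y) : x = y := by
  rw [← hG.pos_spec_z hz hS hb hbz hx, ← hG.pos_spec_z hz hS hb hbz hy, h]

theorem onZ_other {b x : Half τ} (h : On T g b x) {ω : Finset τ} (hn : ¬ Conn (mate ω) g x z) :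
    OnZ T g z b (other (mate ω) g x) :=
  ⟨hG.on_other h ω, fun e => hn (e ▸ conn_other_self ω x)⟩
where
  conn_other_self (ω : Finset τ) (x : Half τ) : Conn (mate ω) g x (other (mate ω) g x) :=
    Conn.iter _ _

/-- the side function of a strand in terms of positions -/
theorem side_pos_z (hz : g z = z) (hS : SCz T g z) (ω : Finset τ) {b p : Half τ} (hb : Bd T g b)
    (hbz : b ≠ z) (hp : OnZ T g z b p) (hpz : ¬ Conn (mate ω) g p z) :
    ∃ c : Half τ → ZMod 2, Corner g c ∧
      (∀ x y : Half τ, x.1 ∈ T → ¬ Conn (mate ω) g p x → Conn (mate ω) g x y → c y = c x) ∧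
      ∀ x, OnZ T g z b x → c x = c b + ((if bpos g b p < bpos g b x then 1 else 0) +
        if bpos g b (other (mate ω) g p) < bpos g b x then 1 else 0) := by
  classical
  obtain ⟨c, h1, -, -, h4, h5⟩ := hG.side_z hS ω hp.bd hpz
  refine ⟨c, h1, h4, fun x hx => ?_⟩
  set q := other (mate ω) g p with hq
  have hqo : OnZ T g z b q := hG.onZ_other hp.toOn hpz
  have hpq : p ≠ q := (hG.other_ne hp.bd).symm
  have key : ∀ j, j < minimalPeriod (next g) b → c ((next g)^[j] b) =
      c b + ((if bpos g b p < j then 1 else 0) + if bpos g b q < j then 1 else 0) := by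
    intro j
    induction j with
    | zero => intro _; simp
    | succ j ih =>
      intro hj
      have hon := hG.on_iter hb j
      rw [iterate_succ_apply', h5 _ hon.bd, ih (by omega)]
      have hpj : bpos g b ((next g)^[j] b) = j := hG.pos_iter (by omega)
      by_cases e1 : (next g)^[j] b = p
      · have e2 : bpos g b p = j := by rw [← e1, hpj]
        have e3 : bpos g b q ≠ j := fun h => hpq (hG.pos_inj_z hz hS hb hbz hp hqo (by rw [e2, h]))
        rw [if_pos (Or.inl e1), e2, if_neg (lt_irrefl j), if_pos (Nat.lt_succ_self j)]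
        by_cases e4 : bpos g b q < j
        · rw [if_pos e4, if_pos (by omega)]; ring
        · rw [if_neg e4, if_neg (by omega)]; ring
      · by_cases e1' : (next g)^[j] b = q
        · have e2 : bpos g b q = j := by rw [← e1', hpj]
          have e3 : bpos g b p ≠ j := fun h => hpq (hG.pos_inj_z hz hS hb hbz hp hqo (by rw [e2, h]))
          rw [if_pos (Or.inr e1'), e2, if_neg (lt_irrefl j), if_pos (Nat.lt_succ_self j)]
          by_cases e4 : bpos g b p < j
          · rw [if_pos e4, if_pos (by omega)]; ring
          · rw [if_neg e4, if_neg (by omega)]; ring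
        · have e2 : bpos g b p ≠ j := fun h => e1 (by
            rw [← hG.pos_spec_z hz hS hb hbz hp, h])
          have e3 : bpos g b q ≠ j := fun h => e1' (by
            rw [← hG.pos_spec_z hz hS hb hbz hqo, h])
          rw [if_neg (show ¬ ((next g)^[j] b = p ∨ (next g)^[j] b = q) by tauto), add_zero]
          have u1 : bpos g b p < j + 1 ↔ bpos g b p < j := by omega
          have u2 : bpos g b q < j + 1 ↔ bpos g b q < j := by omega
          simp only [u1, u2]
  have := key _ (hG.pos_lt_z hz hS hb hbz hx)
  rwa [hG.pos_spec_z hz hS hb hbz hx] at this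

/-- **strands which do not end at `z` do not cross** -/
theorem noncross_pos_z (hz : g z = z) (hS : SCz T g z) (ω : Finset τ) {b p q : Half τ}
    (hb : Bd T g b) (hbz : b ≠ z) (hp : OnZ T g z b p) (hq : OnZ T g z b q)
    (hpz : ¬ Conn (mate ω) g p z) (hqz : ¬ Conn (mate ω) g q z)
    (h1 : q ≠ p) (h2 : q ≠ other (mate ω) g p) :
    ((bpos g b p < bpos g b q ↔ bpos g b (other (mate ω) g p) < bpos g b q) ↔
      (bpos g b p < bpos g b (other (mate ω) g q) ↔
        bpos g b (other (mate ω) g p) < bpos g b (other (mate ω) g q))) := by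
  classical
  obtain ⟨c, -, h4, h5⟩ := hG.side_pos_z hz hS ω hb hbz hp hpz
  have hn : ¬ Conn (mate ω) g p q := fun h => by
    rcases (hG.conn_iff hp.bd hq.bd).1 h with h | h
    · exact h1 h
    · exact h2 h
  have h6 := h4 q _ hq.bd.1 hn (Conn.iter (minimalPeriod (g ∘ mate ω) q / 2) q)
  have h7 := h5 q hq
  have h8 := h5 _ (hG.onZ_other hq.toOn hqz)
  have h9 : c (other (mate ω) g q) = c q := h6
  rw [h9, h7] at h8
  have h10 := add_left_cancel h8
  have w : ∀ a b c d : Prop, [Decidable a] → [Decidable b] → [Decidable c] → [Decidable d] →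
      ((if a then (1 : ZMod 2) else 0) + (if b then 1 else 0) =
        (if c then 1 else 0) + if d then 1 else 0) → ((a ↔ b) ↔ (c ↔ d)) := by
    intro a b c d _ _ _ _ h
    by_cases ha : a <;> by_cases hb : b <;> by_cases hc : c <;> by_cases hd : d <;>
      simp only [ha, hb, hc, hd, if_true, if_false, iff_true, iff_false,
        not_true_eq_false] at h ⊢ <;>
      exact absurd h (by decide)
  exact w _ _ _ _ h10

end Glu

end Full
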