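import Pool.Agent.Full.Disc.SlabSC
import Pool.Agent.Full.Disc.TangleZ

/-!
# The boundary of the two sheet domains

* `Slab.next_z` : the interior end `z` is alone on its boundary cycle;
* `Slab.cycle_z` : in a connected domain all other boundary half edges are on one cycle.
-/

set_option autoImplicit false

namespace Full
open Function Relation

/-- computation of `next` -/
theorem Disc.next_of {τ : Type*} {g : Half τ → Half τ} {x : Half τ} (k : ℕ) (hk : 1 ≤ k)
    (h1 : g ((rot g)^[k] x) = (rot g)^[k] x)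
    (h2 : ∀ j, 1 ≤ j → j < k → g ((rot g)^[j] x) ≠ (rot g)^[j] x) : next g x = (rot g)^[k] x := by
  classical
  have hex : ∃ k, 1 ≤ k ∧ g ((rot g)^[k] x) = (rot g)^[k] x := ⟨k, hk, h1⟩
  have h3 : Nat.find hex = k := (Nat.find_eq_iff hex).2 ⟨⟨hk, h1⟩, fun j hj h => h2 j h.1 hj h.2⟩
  unfold next
  rw [dif_pos hex, h3]

namespace Slab
variable {D : Slab} {x y : ℤ}

/-- horizontal links in the lower sheet -/
lemma go_lowW (hb : D.b < y) (ht : y ≤ D.t) {i : ℤ} (h1 : D.l < i) (h2 : i ≤ D.r) :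
    D.go x y (.inl (i, y - 1), .W) = (.inl (i - 1, y - 1), .E) := by
  have e1 : ((i, y - 1) : ℤ × ℤ) + Dir.W.vec = (i - 1, y - 1) := by
    ext <;> simp [Dir.vec, sub_eq_add_neg]
  have m1 := mem_TL_row (D := D) hb (i := i) (by omega) h2
  have m2 := mem_TL_row (D := D) hb (i := i - 1) (by omega) (by omega)
  have h := nb_low (x := x) hb.le ht (d := .W) m1 (by rw [e1]; exact m2)
  rw [e1] at h
  exact Surf.glue_of_mem (by rw [h]; rfl) (inl_mem.2 m1) (inl_mem.2 m2)

/-- horizontal links in the upper sheet -/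
lemma go_upE (hb : D.b < y) (ht : y ≤ D.t) {i : ℤ} (h1 : (i, y) ∈ D.TU y) (h2 : (i + 1, y) ∈ D.TU y) :
    D.go x y (.inr (i, y), .E) = (.inr (i + 1, y), .W) := by
  have e1 : ((i, y) : ℤ × ℤ) + Dir.E.vec = (i + 1, y) := by ext <;> simp [Dir.vec]
  have h := nb_up (x := x) hb.le ht (d := .E) h1 (by rw [e1]; exact h2)
  rw [e1] at h
  exact Surf.glue_of_mem (by rw [h]; rfl) (inr_mem.2 h1) (inr_mem.2 h2)

/-- from the upper sheet to the lower sheet, right of `z` -/
lemma go_upS (hb : D.b < y) (hx : D.l ≤ x) {i : ℤ} (h1 : x ≤ i) (h2 : i < D.r)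
    (hU : (i, y) ∈ D.TU y) : D.go x y (.inr (i, y), .S) = (.inl (i + 1, y - 1), .N) := by
  have h := go_right' (D := D) (x := x) (y := y) hb hx (i := i + 1) (by omega) (by omega)
    (by rwa [add_sub_cancel_right])
  rw [add_sub_cancel_right] at h
  rw [← h]
  exact (glu_go (D := D)).inv _

/-- **the interior end is alone on its boundary cycle** -/
theorem next_z (hb : D.b < y) (ht : y ≤ D.t) (hx : D.l < x) (hx' : x < D.r)
    (m1 : (x - 1, y) ∈ D.TU y) (m2 : (x, y) ∈ D.TU y) : next (D.go x y) (z x y) = z x y := by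
  have hz := go_z (D := D) (x := x) (y := y) hx.le hx'.le
  have r1 : rot (D.go x y) (z x y) = (.inl (x, y - 1), .W) := by
    unfold rot; rw [hz]; rfl
  have g1 : D.go x y (.inl (x, y - 1), .W) = (.inl (x - 1, y - 1), .E) := go_lowW hb ht hx hx'.le
  have r2 : rot (D.go x y) (.inl (x, y - 1), .W) = (.inl (x - 1, y - 1), .N) := by
    unfold rot; rw [g1]; rfl
  have g2 : D.go x y (.inl (x - 1, y - 1), .N) = (.inr (x - 1, y), .S) :=
    go_left' hb hx'.le (by omega) (by omega) m1
  have r3 : rot (D.go x y) (.inl (x - 1, y - 1), .N) = (.inr (x - 1, y), .E) := by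
    unfold rot; rw [g2]; rfl
  have g3 : D.go x y (.inr (x - 1, y), .E) = (.inr (x, y), .W) := by
    have := go_upE (D := D) (x := x) hb ht m1 (by rwa [sub_add_cancel])
    rwa [sub_add_cancel] at this
  have r4 : rot (D.go x y) (.inr (x - 1, y), .E) = (.inr (x, y), .S) := by
    unfold rot; rw [g3]; rfl
  have g4 : D.go x y (.inr (x, y), .S) = (.inl (x + 1, y - 1), .N) := go_upS hb hx.le le_rfl hx' m2
  have r5 : rot (D.go x y) (.inr (x, y), .S) = (.inl (x + 1, y - 1), .W) := by
    unfold rot; rw [g4]; rfl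
  have g5 : D.go x y (.inl (x + 1, y - 1), .W) = (.inl (x, y - 1), .E) := by
    have := go_lowW (D := D) (x := x) hb ht (i := x + 1) (by omega) (by omega)
    rwa [add_sub_cancel_right] at this
  have r6 : rot (D.go x y) (.inl (x + 1, y - 1), .W) = z x y := by
    unfold rot; rw [g5]; rfl
  have i1 : (rot (D.go x y))^[1] (z x y) = (.inl (x, y - 1), .W) := r1
  have i2 : (rot (D.go x y))^[2] (z x y) = (.inl (x - 1, y - 1), .N) := by
    rw [iterate_succ_apply', i1, r2]
  have i3 : (rot (D.go x y))^[3] (z x y) = (.inr (x - 1, y), .E) := by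
    rw [iterate_succ_apply', i2, r3]
  have i4 : (rot (D.go x y))^[4] (z x y) = (.inr (x, y), .S) := by
    rw [iterate_succ_apply', i3, r4]
  have i5 : (rot (D.go x y))^[5] (z x y) = (.inl (x + 1, y - 1), .W) := by
    rw [iterate_succ_apply', i4, r5]
  have i6 : (rot (D.go x y))^[6] (z x y) = z x y := by
    rw [iterate_succ_apply', i5, r6]
  rw [Disc.next_of 6 (by norm_num) (by rw [i6]; exact hz), i6]
  intro j h1 h2
  have hj : j = 1 ∨ j = 2 ∨ j = 3 ∨ j = 4 ∨ j = 5 := by omega
  rcases hj with rfl | rfl | rfl | rfl | rfl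
  · rw [i1, g1]; intro h; exact Dir.opp_ne .W (congrArg Prod.snd h)
  · rw [i2, g2]; intro h; exact Dir.opp_ne .N (congrArg Prod.snd h)
  · rw [i3, g3]; intro h; exact Dir.opp_ne .E (congrArg Prod.snd h)
  · rw [i4, g4]; intro h; exact Dir.opp_ne .S (congrArg Prod.snd h)
  · rw [i5, g5]; intro h; exact Dir.opp_ne .W (congrArg Prod.snd h)

/-- in a domain simply connected relative to `z` the other boundary half edges of a connected part are on
one cycle -/
theorem cycle_z (hx : D.l ≤ x) (hx' : x ≤ D.r) (hS : SCz (D.T y) (D.go x y) (z x y))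
    {u v : Half ZT} (hu : Bd (D.T y) (D.go x y) u) (hv : Bd (D.T y) (D.go x y) v)
    (hu' : u ≠ z x y) (hv' : v ≠ z x y) (h : TConn (D.T y) (D.go x y) u.1 v.1) :
    ∃ k, (next (D.go x y))^[k] u = v := by
  obtain ⟨k, -, hk⟩ := glu_go.next_trans_z (go_z hx hx') hS hu hv hu' hv' h
  exact ⟨k, hk⟩

end Slab

end Full
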