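import Pool.Agent.Full.Def.Surf

/-!
# The boundary permutation of a simply connected region `(T, g)`

* `Glu.next_periodic` : `next g` permutes the boundary half edges;
* `TConn` : tiles joined by a chain of glued sides;
* `Glu.next_trans` : in a simply connected region two boundary half edges whose tiles are joined lie on
  the same cycle of `next g`.
-/

set_option autoImplicit false

namespace Full
open Function Relation

variable {τ : Type*} {T : Finset τ} {g : Half τ → Half τ}

/-- two tiles joined by a chain of glued sides -/
def TConn (T : Finset τ) (g : Half τ → Half τ) : τ → τ → Prop :=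
  ReflTransGen fun a b => ∃ x : Half τ, x.1 = a ∧ x.1 ∈ T ∧ (g x).1 = b

theorem finite_bd (T : Finset τ) (g : Half τ → Half τ) : {x : Half τ | Bd T g x}.Finite :=
  (finite_half T).subset fun _ h => h.1

namespace Glu
variable (hG : Glu T g)
include hG

theorem bd_iter {x : Half τ} (hx : Bd T g x) (k : ℕ) : Bd T g ((next g)^[k] x) := by
  induction k with
  | zero => exact hx
  | succ k ih => rw [iterate_succ_apply']; exact hG.next_bd ih

theorem next_periodic {x : Half τ} (hx : Bd T g x) : x ∈ periodicPts (next g) := by
  have : Finite {x : Half τ | Bd T g x} := finite_bd T g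
  have hm : Set.MapsTo (next g) {x : Half τ | Bd T g x} {x : Half τ | Bd T g x} :=
    fun y hy => hG.next_bd hy
  have hg : Injective (hm.restrict (next g) _ _) := fun a b h =>
    Subtype.ext (hG.next_inj a.2.2 b.2.2 (congrArg Subtype.val h))
  obtain ⟨n, hn, h1⟩ := hg.mem_periodicPts ⟨x, hx⟩
  refine ⟨n, hn, ?_⟩
  have h2 : (hm.restrict (next g) _ _)^[n] ⟨x, hx⟩ = ⟨x, hx⟩ := h1
  have h3 : ∀ (k : ℕ) (y : {x : Half τ | Bd T g x}),
      ((hm.restrict (next g) _ _)^[k] y : Half τ) = (next g)^[k] y := by
    intro k
    induction k with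
    | zero => intro y; rfl
    | succ k ih => intro y; rw [iterate_succ_apply, iterate_succ_apply, ih]; rfl
  have h4 := h3 n ⟨x, hx⟩
  rw [h2] at h4
  exact h4.symm

theorem tconn_symm {a b : τ} (h : TConn T g a b) : TConn T g b a := by
  induction h with
  | refl => exact ReflTransGen.refl
  | tail _ h2 ih =>
    obtain ⟨x, rfl, hx, rfl⟩ := h2
    exact ReflTransGen.head ⟨g x, rfl, hG.mem x hx, by rw [hG.inv]⟩ ih

theorem tconn_glue (x : Half τ) : TConn T g x.1 (g x).1 := by
  by_cases hx : x.1 ∈ T
  · exact ReflTransGen.single ⟨x, rfl, hx, rfl⟩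
  · rw [hG.out x hx]; exact ReflTransGen.refl

theorem tconn_next (x : Half τ) : TConn T g x.1 (next g x).1 := by
  classical
  have key : ∀ k, TConn T g x.1 ((rot g)^[k] x).1 := by
    intro k
    induction k with
    | zero => exact ReflTransGen.refl
    | succ k ih => rw [iterate_succ_apply']; exact ih.trans (hG.tconn_glue _)
  unfold next
  split_ifs
  · exact key _
  · exact ReflTransGen.refl

theorem tconn_iter (x : Half τ) (k : ℕ) : TConn T g x.1 ((next g)^[k] x).1 := by
  induction k with
  | zero => exact ReflTransGen.refl
  | succ k ih => rw [iterate_succ_apply']; exact ih.trans (hG.tconn_next _)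

theorem tconn_conn [DecidableEq τ] {ω : Finset τ} {x y : Half τ} (h : Conn (mate ω) g x y) :
    TConn T g x.1 y.1 := by
  induction h with
  | refl => exact ReflTransGen.refl
  | @tail b c _ h2 ih =>
    rcases h2 with rfl | rfl
    · exact ih
    · exact ih.trans (hG.tconn_glue _)

theorem tconn_other [DecidableEq τ] (ω : Finset τ) (x : Half τ) :
    TConn T g x.1 (other (mate ω) g x).1 := hG.tconn_conn (Conn.iter _ _)

/-- the cochain of a chain of tiles -/
theorem chain [DecidableEq τ] {a b : τ} (h : TConn T g a b) : ∃ χ : Half τ → ZMod 2,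
    (∀ x, χ (g x) = χ x) ∧ (∀ x, g x = x → χ x = 0) ∧
    ∀ t, ∑ d, χ (t, d) = (if t = a then 1 else 0) + if t = b then 1 else 0 := by
  induction h with
  | refl =>
    refine ⟨fun _ => 0, fun _ => rfl, fun _ _ => rfl, fun t => ?_⟩
    rw [Finset.sum_const_zero]
    exact (CharTwo.add_self_eq_zero _).symm
  | @tail b c _ h2 ih =>
    obtain ⟨χ, h3, h4, h5⟩ := ih
    obtain ⟨y, rfl, hb, rfl⟩ := h2
    by_cases hbc : g y = y
    · exact ⟨χ, h3, h4, by rw [hbc]; exact h5⟩
    refine ⟨fun x => χ x + ((if x = y then 1 else 0) + if x = g y then 1 else 0),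
      fun x => ?_, fun x hx => ?_, fun t => ?_⟩
    · have e1 : (g x = y) = (x = g y) := by
        apply propext
        constructor
        · intro h; rw [← h, hG.inv]
        · rintro rfl; exact hG.inv y
      have e2 : (g x = g y) = (x = y) := propext ⟨fun h => hG.inj h, fun h => by rw [h]⟩
      simp only [h3, e1, e2]
      rw [add_comm (if x = g y then (1 : ZMod 2) else 0)]
    · have e1 : ¬ x = y := by
        rintro rfl; exact hbc hx
      have e2 : ¬ x = g y := by
        rintro rfl; rw [hG.inv] at hx; exact hbc hx.symm
      simp only [h4 x hx, if_neg e1, if_neg e2, add_zero]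
    · rw [Finset.sum_add_distrib, Finset.sum_add_distrib, h5 t]
      have s : ∀ z : Half τ, ∑ d', (if ((t, d') : Half τ) = z then (1 : ZMod 2) else 0)
          = if t = z.1 then 1 else 0 := by
        rintro ⟨s, d⟩
        by_cases hts : t = s
        · subst hts
          rw [if_pos rfl]
          have : ∀ d', ((t, d') : Half τ) = (t, d) ↔ d' = d := fun d' => by simp
          simp only [this, Finset.sum_ite_eq', Finset.mem_univ, if_true]
        · rw [if_neg hts]
          refine Finset.sum_eq_zero fun d' _ => ?_
          rw [if_neg]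
          rintro h; exact hts (congrArg Prod.fst h)
      rw [s y, s (g y)]
      have := CharTwo.add_self_eq_zero (if t = y.1 then (1 : ZMod 2) else 0)
      linear_combination this

/-- an exact cochain along the boundary -/
theorem iter_next {c χ : Half τ → ZMod 2} (hc : Corner g c)
    (h : ∀ x : Half τ, x.1 ∈ T → c (rho x) = c x + χ x) {x : Half τ} (hx : Bd T g x) (k : ℕ) :
    c ((next g)^[k] x) = c x + ∑ i ∈ Finset.range k, χ ((next g)^[i] x) := by
  induction k with
  | zero => simp
  | succ k ih =>
    have hb := hG.bd_iter hx k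
    rw [iterate_succ_apply', hG.corner_next hc hb.2, h _ hb.1, ih, Finset.sum_range_succ]
    ring

/-- **`next` is transitive**: boundary half edges of a connected part of a simply connected region lie on
one cycle -/
theorem next_trans (hS : SC T g) {x y : Half τ} (hx : Bd T g x) (hy : Bd T g y)
    (hxy : TConn T g x.1 y.1) : ∃ k < minimalPeriod (next g) x, (next g)^[k] x = y := by
  classical
  by_contra hno
  have hno' : ∀ k, (next g)^[k] x ≠ y := by
    intro k hk
    apply hno
    refine ⟨k % minimalPeriod (next g) x, Nat.mod_lt _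
      (minimalPeriod_pos_of_mem_periodicPts (hG.next_periodic hx)), ?_⟩
    rw [iterate_mod_minimalPeriod_eq, hk]
  obtain ⟨χ, h1, h2, h3⟩ := hG.chain hxy
  set χ' : Half τ → ZMod 2 := fun z => χ z + ((if z = x then 1 else 0) + if z = y then 1 else 0)
    with hχ'
  have g1 : ∀ z, χ' (g z) = χ' z := by
    intro z
    have e1 : (g z = x) = (z = x) := by
      apply propext
      constructor
      · intro h; rw [← hG.inv z, h, hx.2]
      · rintro rfl; exact hx.2
    have e2 : (g z = y) = (z = y) := by
      apply propext
      constructor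
      · intro h; rw [← hG.inv z, h, hy.2]
      · rintro rfl; exact hy.2
    simp only [hχ', h1, e1, e2]
  have g2 : ∀ t ∈ T, ∑ d, χ' (t, d) = 0 := by
    intro t _
    have s : ∀ z : Half τ, ∑ d', (if ((t, d') : Half τ) = z then (1 : ZMod 2) else 0)
        = if t = z.1 then 1 else 0 := by
      rintro ⟨s, d⟩
      by_cases hts : t = s
      · subst hts
        rw [if_pos rfl]
        have : ∀ d', ((t, d') : Half τ) = (t, d) ↔ d' = d := fun d' => by simp
        simp only [this, Finset.sum_ite_eq', Finset.mem_univ, if_true]
      · rw [if_neg hts]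
        refine Finset.sum_eq_zero fun d' _ => ?_
        rw [if_neg]
        rintro h; exact hts (congrArg Prod.fst h)
    simp only [hχ']
    rw [Finset.sum_add_distrib, Finset.sum_add_distrib, h3 t, s x, s y]
    exact CharTwo.add_self_eq_zero _
  obtain ⟨c, hc, hcr⟩ := hS χ' g1 g2
  set n := minimalPeriod (next g) x with hn
  have hnpos : 0 < n := minimalPeriod_pos_of_mem_periodicPts (hG.next_periodic hx)
  have h5 := hG.iter_next hc hcr hx n
  have h6 : (next g)^[n] x = x := iterate_minimalPeriod
  rw [h6] at h5
  have h7 : ∑ i ∈ Finset.range n, χ' ((next g)^[i] x) = 1 := by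
    rw [Finset.sum_eq_single 0]
    · simp only [iterate_zero, id_eq, hχ', h2 x hx.2, if_true, zero_add]
      rw [if_neg (by have := hno' 0; simpa using this), add_zero]
    · intro i hi hi0
      have hb := hG.bd_iter hx i
      have hne : (next g)^[i] x ≠ x := by
        intro h
        have : IsPeriodicPt (next g) i x := h
        have := this.minimalPeriod_le (by omega)
        have := Finset.mem_range.1 hi
        omega
      simp only [hχ', h2 _ hb.2, if_neg hne, if_neg (hno' i), add_zero]
    · intro h; exact absurd (Finset.mem_range.2 hnpos) h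
  rw [h7] at h5
  have h8 : (1 : ZMod 2) = 0 := by linear_combination -h5
  exact absurd h8 (by decide)

end Glu

end Full
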