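import Pool.Agent.Full.Disc.Tangle

/-!
# Positions along the boundary

`bpos g b x` is the position of the boundary half edge `x` on the cycle of `next g` which starts at `b`.
* `Glu.pos_spec`, `Glu.pos_lt`, `Glu.pos_inj`;
* `Glu.noncross_pos` : `q` is between `p` and `other p` iff `other q` is;
* `Glu.noncross_four` : no `p < q < other p < other q`.
-/

set_option autoImplicit false

namespace Full
open Function Relation

variable {τ : Type*} {T : Finset τ} {g : Half τ → Half τ}

open Classical in
/-- the position of `x` on the boundary cycle starting at `b` -/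
noncomputable def bpos (g : Half τ → Half τ) (b x : Half τ) : ℕ :=
  if h : ∃ k, (next g)^[k] b = x then Nat.find h else 0

/-- `x` is a boundary half edge in the part of the region which contains `b` -/
structure On (T : Finset τ) (g : Half τ → Half τ) (b x : Half τ) : Prop where
  bd : Bd T g x
  conn : TConn T g b.1 x.1

namespace Glu
variable (hG : Glu T g)
include hG

theorem on_self {b : Half τ} (hb : Bd T g b) : On T g b b := ⟨hb, ReflTransGen.refl⟩

theorem on_next {b x : Half τ} (h : On T g b x) : On T g b (next g x) :=
  ⟨hG.next_bd h.bd, h.conn.trans (hG.tconn_next x)⟩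

theorem on_iter {b : Half τ} (hb : Bd T g b) (k : ℕ) : On T g b ((next g)^[k] b) :=
  ⟨hG.bd_iter hb k, hG.tconn_iter b k⟩

theorem on_other [DecidableEq τ] {b x : Half τ} (h : On T g b x) (ω : Finset τ) :
    On T g b (other (mate ω) g x) :=
  ⟨hG.other_bd h.bd, h.conn.trans (hG.tconn_other ω x)⟩

theorem pos_spec' (hS : SC T g) {b x : Half τ} (hb : Bd T g b) (hx : On T g b x) :
    (next g)^[bpos g b x] b = x ∧ bpos g b x < minimalPeriod (next g) b := by
  classical
  obtain ⟨k, hk, h⟩ := hG.next_trans hS hb hx.bd hx.conn
  have hex : ∃ k, (next g)^[k] b = x := ⟨k, h⟩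
  unfold bpos
  rw [dif_pos hex]
  exact ⟨Nat.find_spec hex, lt_of_le_of_lt (Nat.find_min' hex h) hk⟩

theorem pos_spec (hS : SC T g) {b x : Half τ} (hb : Bd T g b) (hx : On T g b x) :
    (next g)^[bpos g b x] b = x := (hG.pos_spec' hS hb hx).1

theorem pos_lt (hS : SC T g) {b x : Half τ} (hb : Bd T g b) (hx : On T g b x) :
    bpos g b x < minimalPeriod (next g) b := (hG.pos_spec' hS hb hx).2

theorem pos_inj (hS : SC T g) {b x y : Half τ} (hb : Bd T g b) (hx : On T g b x) (hy : On T g b y)
    (h : bpos g b x = bpos g b y) : x = y := by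
  rw [← hG.pos_spec hS hb hx, ← hG.pos_spec hS hb hy, h]

theorem pos_iter {b : Half τ} {k : ℕ} (hk : k < minimalPeriod (next g) b) :
    bpos g b ((next g)^[k] b) = k := by
  classical
  have hex : ∃ j, (next g)^[j] b = (next g)^[k] b := ⟨k, rfl⟩
  unfold bpos
  rw [dif_pos hex]
  have h1 := Nat.find_spec hex
  have h2 := Nat.find_min' hex rfl
  exact (iterate_injOn_Iio_minimalPeriod (f := next g) (x := b)) (lt_of_le_of_lt h2 hk) hk h1

@[simp] theorem pos_self {b : Half τ} : bpos g b b = 0 := by
  classical
  have hex : ∃ j, (next g)^[j] b = b := ⟨0, rfl⟩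
  unfold bpos
  rw [dif_pos hex]
  exact (Nat.find_eq_zero hex).2 rfl

theorem pos_next (hS : SC T g) {b x : Half τ} (hb : Bd T g b) (hx : On T g b x)
    (h : next g x ≠ b) : bpos g b (next g x) = bpos g b x + 1 := by
  have h1 := hG.pos_spec hS hb hx
  have h2 := hG.pos_lt hS hb hx
  have h3 : (next g)^[bpos g b x + 1] b = next g x := by rw [iterate_succ_apply', h1]
  have h4 : bpos g b x + 1 < minimalPeriod (next g) b := by
    rcases Nat.lt_or_ge (bpos g b x + 1) (minimalPeriod (next g) b) with h5 | h5
    · exact h5
    · exfalso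
      have h6 : bpos g b x + 1 = minimalPeriod (next g) b := by omega
      rw [h6] at h3
      exact h (h3.symm.trans iterate_minimalPeriod)
  rw [← h3]
  exact hG.pos_iter h4

variable [DecidableEq τ]

/-- the side function of a strand in terms of positions -/
theorem side_pos (hS : SC T g) (ω : Finset τ) {b p : Half τ} (hb : Bd T g b) (hp : On T g b p) :
    ∃ c : Half τ → ZMod 2, Corner g c ∧
      (∀ x y : Half τ, x.1 ∈ T → ¬ Conn (mate ω) g p x → Conn (mate ω) g x y → c y = c x) ∧
      ∀ x, On T g b x → c x = c b + ((if bpos g b p < bpos g b x then 1 else 0) +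
        if bpos g b (other (mate ω) g p) < bpos g b x then 1 else 0) := by
  classical
  obtain ⟨c, h1, -, -, h4, h5⟩ := hG.side hS ω hp.bd
  refine ⟨c, h1, h4, fun x hx => ?_⟩
  set q := other (mate ω) g p with hq
  have hqo : On T g b q := hG.on_other hp ω
  have hpq : p ≠ q := (hG.other_ne hp.bd).symm
  have key : ∀ j, j < minimalPeriod (next g) b → c ((next g)^[j] b) =
      c b + ((if bpos g b p < j then 1 else 0) + if bpos g b q < j then 1 else 0) := by
    intro j
    induction j with
    | zero => intro _; simp
    | succ j ih =>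
      intro hj
      have hon := hG.on_iter hb j
      rw [iterate_succ_apply', h5 _ hon.bd, ih (by omega)]
      have hpj : bpos g b ((next g)^[j] b) = j := hG.pos_iter (by omega)
      by_cases e1 : (next g)^[j] b = p
      · have e2 : bpos g b p = j := by rw [← e1, hpj]
        have e3 : bpos g b q ≠ j := fun h => hpq (hG.pos_inj hS hb hp hqo (by rw [e2, h]))
        rw [if_pos (Or.inl e1), e2, if_neg (lt_irrefl j), if_pos (Nat.lt_succ_self j)]
        by_cases e4 : bpos g b q < j
        · rw [if_pos e4, if_pos (by omega)]; ring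
        · rw [if_neg e4, if_neg (by omega)]; ring
      · by_cases e1' : (next g)^[j] b = q
        · have e2 : bpos g b q = j := by rw [← e1', hpj]
          have e3 : bpos g b p ≠ j := fun h => hpq (hG.pos_inj hS hb hp hqo (by rw [e2, h]))
          rw [if_pos (Or.inr e1'), e2, if_neg (lt_irrefl j), if_pos (Nat.lt_succ_self j)]
          by_cases e4 : bpos g b p < j
          · rw [if_pos e4, if_pos (by omega)]; ring
          · rw [if_neg e4, if_neg (by omega)]; ring
        · have e2 : bpos g b p ≠ j := fun h => e1 (by
            rw [← hG.pos_spec hS hb hp, h])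
          have e3 : bpos g b q ≠ j := fun h => e1' (by
            rw [← hG.pos_spec hS hb hqo, h])
          rw [if_neg (show ¬ ((next g)^[j] b = p ∨ (next g)^[j] b = q) by tauto), add_zero]
          have u1 : bpos g b p < j + 1 ↔ bpos g b p < j := by omega
          have u2 : bpos g b q < j + 1 ↔ bpos g b q < j := by omega
          simp only [u1, u2]
  have := key _ (hG.pos_lt hS hb hx)
  rwa [hG.pos_spec hS hb hx] at this

/-- **the tangle is not crossing**: for `q` not an end of the strand of `p` -/
theorem noncross_pos (hS : SC T g) (ω : Finset τ) {b p q : Half τ} (hb : Bd T g b)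
    (hp : On T g b p) (hq : On T g b q) (h1 : q ≠ p) (h2 : q ≠ other (mate ω) g p) :
    ((bpos g b p < bpos g b q ↔ bpos g b (other (mate ω) g p) < bpos g b q) ↔
      (bpos g b p < bpos g b (other (mate ω) g q) ↔
        bpos g b (other (mate ω) g p) < bpos g b (other (mate ω) g q))) := by
  classical
  obtain ⟨c, -, h4, h5⟩ := hG.side_pos hS ω hb hp
  have hn : ¬ Conn (mate ω) g p q := fun h => by
    rcases (hG.conn_iff hp.bd hq.bd).1 h with h | h
    · exact h1 h
    · exact h2 h
  have h6 := h4 q _ hq.bd.1 hn (Conn.iter (minimalPeriod (g ∘ mate ω) q / 2) q)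
  have h7 := h5 q hq
  have h8 := h5 _ (hG.on_other hq ω)
  have h9 : c (other (mate ω) g q) = c q := h6
  rw [h9, h7] at h8
  have h10 := add_left_cancel h8
  have z : ∀ a b c d : Prop, [Decidable a] → [Decidable b] → [Decidable c] → [Decidable d] →
      ((if a then (1 : ZMod 2) else 0) + (if b then 1 else 0) =
        (if c then 1 else 0) + if d then 1 else 0) → ((a ↔ b) ↔ (c ↔ d)) := by
    intro a b c d _ _ _ _ h
    by_cases ha : a <;> by_cases hb : b <;> by_cases hc : c <;> by_cases hd : d <;>
      simp only [ha, hb, hc, hd, if_true, if_false, iff_true, iff_false,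
        not_true_eq_false] at h ⊢ <;>
      exact absurd h (by decide)
  exact z _ _ _ _ h10

/-- no crossing, in the usual form -/
theorem noncross_four (hS : SC T g) (ω : Finset τ) {b p q : Half τ} (hb : Bd T g b)
    (hp : On T g b p) (hq : On T g b q) (h1 : bpos g b p < bpos g b q)
    (h2 : bpos g b q < bpos g b (other (mate ω) g p)) :
    bpos g b p < bpos g b (other (mate ω) g q) ∧
      bpos g b (other (mate ω) g q) < bpos g b (other (mate ω) g p) := by
  have n1 : q ≠ p := by rintro rfl; omega
  have n2 : q ≠ other (mate ω) g p := by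
    intro h; rw [← h] at h2; omega
  have h := hG.noncross_pos hS ω hb hp hq n1 n2
  have n3 : bpos g b (other (mate ω) g q) ≠ bpos g b p := fun e => by
    have e1 := hG.pos_inj hS hb (hG.on_other hq ω) hp e
    have e2 := congrArg (other (mate ω) g) e1
    rw [hG.other_other hq.bd] at e2
    exact n2 e2
  have n4 : bpos g b (other (mate ω) g q) ≠ bpos g b (other (mate ω) g p) := fun e => by
    have e1 := hG.pos_inj hS hb (hG.on_other hq ω) (hG.on_other hp ω) e
    have e2 := congrArg (other (mate ω) g) e1
    rw [hG.other_other hq.bd, hG.other_other hp.bd] at e2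
    exact n1 e2
  have n5 : ¬ (bpos g b p < bpos g b q ↔ bpos g b (other (mate ω) g p) < bpos g b q) := by
    intro h'; have := h'.1 h1; omega
  have n6 : ¬ (bpos g b p < bpos g b (other (mate ω) g q) ↔
      bpos g b (other (mate ω) g p) < bpos g b (other (mate ω) g q)) := fun h' => n5 (h.2 h')
  constructor
  · by_contra h3
    apply n6
    constructor <;> intro h' <;> omega
  · by_contra h3
    apply n6
    constructor <;> intro h' <;> omega

end Glu

end Full
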