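import Pool.Agent.Full.Disc.PlaneSC

/-!
# Regions without holes

`NoHole T`: every cell outside `T` can be joined to infinity outside `T`.
* `noHole_rows` : a union of rows of a region without holes has no holes;
* `noHole_box`, `noHole_translate`.
-/

set_option autoImplicit false

namespace Full.Disc
open Relation

/-- every cell outside `T` can be joined to infinity outside `T` -/
def NoHole (T : Set (ℤ × ℤ)) : Prop := ∀ c, c ∉ T → Free T c

/-- a walk to the right outside `T` -/
theorem walk_right {T : Set (ℤ × ℤ)} {i j : ℤ} (n : ℕ) (h : ∀ k : ℤ, i < k → k ≤ i + n → (k, j) ∉ T) :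
    ReflTransGen (fun a b => Nb a b ∧ b ∉ T) (i, j) (i + n, j) := by
  induction n with
  | zero => rw [Nat.cast_zero, add_zero]
  | succ n ih =>
    refine (ih fun k h1 h2 => h k h1 (by push_cast; omega)).tail ⟨?_, ?_⟩
    · have := Nb.right (i + n) j
      rwa [add_assoc] at this
    · exact h _ (by push_cast; omega) (by push_cast; omega)

theorem Free.trans {T : Set (ℤ × ℤ)} {c d : ℤ × ℤ}
    (h : ReflTransGen (fun a b => Nb a b ∧ b ∉ T) c d) (hd : Free T d) : Free T c := by
  obtain ⟨e, h1, h2⟩ := hd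
  exact ⟨e, h.trans h1, h2⟩

theorem Free.mono {T S : Set (ℤ × ℤ)} (hTS : S ⊆ T) {c : ℤ × ℤ} (h : Free T c) : Free S c := by
  obtain ⟨e, h1, h2⟩ := h
  have h3 : ReflTransGen (fun a b => Nb a b ∧ b ∉ S) (id c) (id e) :=
    h1.lift id fun a b hab => ⟨hab.1, fun hb => hab.2 (hTS hb)⟩
  exact ⟨e, h3, fun i hi hm => h2 i hi (hTS hm)⟩

/-- **a union of maximal rows** of a region without holes has no holes -/
theorem noHole_rows {P : Finset (ℤ × ℤ)} (hP : NoHole (P : Set (ℤ × ℤ))) {Q : Set (ℤ × ℤ)}
    (hQ : Q ⊆ P) (hrow : ∀ i j : ℤ, (i + 1, j) ∈ Q → (i, j) ∈ P → (i, j) ∈ Q) : NoHole Q := by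
  rintro ⟨i, j⟩ hc
  -- walk to the right until the end of the row of `P`
  have hfin : ∃ n : ℕ, (i + (n : ℤ), j) ∉ P := by
    by_contra hno
    push Not at hno
    have h1 : Set.InjOn (fun n : ℕ => (i + (n : ℤ), j)) Set.univ := by
      intro a _ b _ hab
      simpa using hab
    have h2 := Set.infinite_of_injOn_mapsTo h1 (t := (P : Set (ℤ × ℤ))) (fun n _ => hno n)
      Set.infinite_univ
    exact h2 P.finite_toSet
  classical
  have hn := Nat.find_spec hfin
  have hmin := fun m hm => Nat.find_min hfin (m := m) hm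
  set n := Nat.find hfin with hndef
  have hnot : ∀ m : ℕ, m ≤ n → (i + (m : ℤ), j) ∉ Q := by
    intro m
    induction m with
    | zero => intro _; simpa using hc
    | succ m ih =>
      intro hm hmem
      have h1 := hmin m (by omega)
      rw [not_not] at h1
      refine ih (by omega) (hrow _ _ ?_ h1)
      rw [show i + (m : ℤ) + 1 = i + ((m + 1 : ℕ) : ℤ) by push_cast; ring]
      exact hmem
  refine Free.trans (walk_right n fun k h1 h2 => ?_) ((hP _ (fun h => hn (by simpa using h))).mono hQ)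
  have := hnot (k - i).toNat (by omega)
  rwa [show i + ((k - i).toNat : ℤ) = k by omega] at this

theorem noHole_box (a b c d : ℤ) : NoHole {t : ℤ × ℤ | (a ≤ t.1 ∧ t.1 < b) ∧ c ≤ t.2 ∧ t.2 < d} := by
  rintro ⟨i, j⟩ hc
  by_cases h : (c ≤ j ∧ j < d) ∧ i < b
  · -- go down below the box
    obtain ⟨⟨h1, h2⟩, h3⟩ := h
    have h4 : i < a := by
      by_contra h4
      exact hc ⟨⟨by simpa using h4, h3⟩, h1, h2⟩
    have key : ∀ n : ℕ, ReflTransGen (fun a' b' : ℤ × ℤ => Nb a' b' ∧
        b' ∉ {t : ℤ × ℤ | (a ≤ t.1 ∧ t.1 < b) ∧ c ≤ t.2 ∧ t.2 < d}) (i, j) (i, j - n) := by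
      intro n
      induction n with
      | zero => rw [Nat.cast_zero, sub_zero]
      | succ n ih =>
        refine ih.tail ⟨?_, ?_⟩
        · have := Nb.down i (j - (n + 1 : ℕ))
          rwa [show j - ((n + 1 : ℕ) : ℤ) + 1 = j - n by push_cast; ring] at this
        · rintro ⟨⟨h5, -⟩, -⟩
          exact absurd h5 (by simp only; omega)
    refine ⟨(i, j - (j - c + 1).toNat), key _, fun k _ hk => ?_⟩
    have := hk.2.1
    simp only at this
    omega
  · refine ⟨(i, j), ReflTransGen.refl, fun k hk hm => h ⟨⟨hm.2.1, hm.2.2⟩, ?_⟩⟩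
    have h1 := hm.1.2
    simp only at h1 hk
    omega

theorem noHole_translate {T : Set (ℤ × ℤ)} (h : NoHole T) (v : ℤ × ℤ) :
    NoHole {t | t - v ∈ T} := by
  rintro c hc
  obtain ⟨d, h1, h2⟩ := h (c - v) hc
  have hnb : ∀ a b : ℤ × ℤ, Nb a b → Nb (a + v) (b + v) := by
    intro a b hab
    obtain ⟨v1, v2⟩ := v
    cases hab with
    | right i j =>
      have := Nb.right (i + v1) (j + v2)
      rwa [add_right_comm] at this
    | left i j =>
      have := Nb.left (i + v1) (j + v2)
      rwa [add_right_comm] at this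
    | up i j =>
      have := Nb.up (i + v1) (j + v2)
      rwa [add_right_comm] at this
    | down i j =>
      have := Nb.down (i + v1) (j + v2)
      rwa [add_right_comm] at this
  refine ⟨d + v, ?_, fun i hi hm => ?_⟩
  · have key : ∀ e, ReflTransGen (fun a b => Nb a b ∧ b ∉ T) (c - v) e →
        ReflTransGen (fun a b => Nb a b ∧ b ∉ {t | t - v ∈ T}) c (e + v) := by
      intro e he
      induction he with
      | refl => rw [sub_add_cancel]
      | tail _ h4 ih =>
        refine ih.tail ⟨hnb _ _ h4.1, ?_⟩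
        show ¬ (_ + v - v ∈ T)
        rw [add_sub_cancel_right]
        exact h4.2
    exact key d h1
  · refine h2 (i - v.1) ?_ ?_
    · have : d.1 + v.1 ≤ i := hi
      omega
    · have h3 : (i, (d + v).2) - v ∈ T := hm
      have h4 : ((i, (d + v).2) - v : ℤ × ℤ) = (i - v.1, d.2) := by
        ext
        · rfl
        · show d.2 + v.2 - v.2 = d.2
          ring
      rwa [h4] at h3

end Full.Disc
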