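import Pool.Agent.Full.Disc.Glue
import Pool.Agent.Full.Disc.Rows
import Pool.Agent.Full.Def.Geo

/-!
# The two sheet domains are simply connected relative to the interior end

`Slab.scz_go`: if the two sheets `TL y`, `TU y` have no holes, the domain with the end `z = (x, y)` is
simply connected relative to `z`.  `Slab.scz_go_lab`: the same with `y` on the ceiling, if every part of
the upper sheet is attached to the ceiling along one run.
-/

set_option autoImplicit false

namespace Full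
open Function Relation

theorem isPlane_plane : IsPlane plane := by
  constructor
  · intro t
    have := nb_plane .E t
    show plane.nb .E t = _
    rw [this]
    obtain ⟨i, j⟩ := t
    simp [Dir.vec]
  · intro t
    have := nb_plane .N t
    show plane.nb .N t = _
    rw [this]
    obtain ⟨i, j⟩ := t
    simp [Dir.vec]

/-- a plane region without holes is simply connected -/
theorem plane_sc {T : Finset (ℤ × ℤ)} (h : Disc.NoHole (T : Set (ℤ × ℤ))) : SC T (plane.glue T) :=
  isPlane_plane.sc fun c hc => h c (by simpa using hc)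

namespace Slab
variable {D : Slab} {x y : ℤ}

/-- the gluing of the two separate sheets -/
noncomputable def g0 (D : Slab) (y : ℤ) : Half ZT → Half ZT :=
  sumGlue (plane.glue (D.TL y)) (plane.glue (D.TU y))

theorem glu_g0 : Glu (D.T y) (D.g0 y) := (plane.glu _).sum (plane.glu _)

lemma mem_TL {i j : ℤ} : (i, j) ∈ D.TL y ↔
    (i, j) ∈ D.L ∨ ((D.l ≤ i ∧ i ≤ D.r) ∧ D.b ≤ j ∧ j < y) := by
  unfold TL
  rw [Finset.mem_union, mem_box, Int.lt_add_one_iff]

lemma mem_TU {i j : ℤ} : (i, j) ∈ D.TU y ↔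
    (i, j) ∈ D.U ∨ ((D.l ≤ i ∧ i < D.r) ∧ y ≤ j ∧ j < D.t) := by
  unfold TU
  rw [Finset.mem_union, mem_box]

lemma inl_mem {t : ℤ × ℤ} : (Sum.inl t : ZT) ∈ D.T y ↔ t ∈ D.TL y := Finset.inl_mem_disjSum
lemma inr_mem {t : ℤ × ℤ} : (Sum.inr t : ZT) ∈ D.T y ↔ t ∈ D.TU y := Finset.inr_mem_disjSum

/-- above the lower sheet -/
lemma notMem_TL (hb : D.b ≤ y) (ht : y ≤ D.t) {i : ℤ} (h1 : D.l - 1 ≤ i) (h2 : i ≤ D.r + 1) :
    (i, y) ∉ D.TL y := by
  rw [mem_TL]
  rintro (h | h)
  · exact D.hL i y h1 h2 hb ht h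
  · omega

/-- below the upper sheet -/
lemma notMem_TU (hb : D.b ≤ y) (ht : y ≤ D.t) {i : ℤ} (h1 : D.l - 1 ≤ i) (h2 : i ≤ D.r) :
    (i, y - 1) ∉ D.TU y := by
  rw [mem_TU]
  rintro (h | h)
  · exact D.hU i (y - 1) h1 h2 (by omega) (by omega) h
  · omega

lemma mem_TL_row (hb : D.b < y) {i : ℤ} (h1 : D.l ≤ i) (h2 : i ≤ D.r) : (i, y - 1) ∈ D.TL y :=
  mem_TL.2 (Or.inr ⟨⟨h1, h2⟩, by omega, by omega⟩)

lemma mem_TU_row (ht : y < D.t) {i : ℤ} (h1 : D.l ≤ i) (h2 : i < D.r) : (i, y) ∈ D.TU y :=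
  mem_TU.2 (Or.inr ⟨⟨h1, h2⟩, le_rfl, ht⟩)

/-- the neighbours in the two sheets, away from the line `y` -/
lemma nb_low (hb : D.b ≤ y) (ht : y ≤ D.t) {i j : ℤ} {d : Dir} (h1 : (i, j) ∈ D.TL y)
    (h2 : ((i, j) : ℤ × ℤ) + d.vec ∈ D.TL y) :
    (zsurf D.l D.r x y y y).nb d (.inl (i, j)) = some (.inl ((i, j) + d.vec)) := by
  cases d with
  | E =>
    rw [zs_E_low_open (by omega)]
    congr 2
    ext <;> simp [Dir.vec]
  | N =>
    rw [zs_N_low]
    · congr 2
      ext <;> simp [Dir.vec]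
    · rintro ⟨rfl, h3, h4⟩
      refine notMem_TL hb ht (i := i) (by omega) (by omega) ?_
      have : ((i, y - 1) : ℤ × ℤ) + Dir.N.vec = (i, y) := by ext <;> simp [Dir.vec]
      rwa [this] at h2
  | W =>
    have h3 : (Sum.inl (i, j) : ZT) ∈ (zsurf D.l D.r x y y y).nb .E (.inl (i - 1, j)) := by
      rw [zs_E_low_open (by omega)]
      simp
    have h4 : (Sum.inl (i - 1, j) : ZT) ∈ (zsurf D.l D.r x y y y).nb .W (.inl (i, j)) :=
      Surf.mem_nb.1 h3
    rw [Option.mem_def] at h4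
    rw [h4]
    congr 2
    ext <;> simp [Dir.vec, sub_eq_add_neg]
  | S =>
    rw [zs_S_low]
    · congr 2
      ext <;> simp [Dir.vec, sub_eq_add_neg]
    · rintro ⟨rfl, h3, h4⟩
      exact notMem_TL hb ht (i := i) (by omega) (by omega) h1

lemma nb_up (hb : D.b ≤ y) (ht : y ≤ D.t) {i j : ℤ} {d : Dir} (h1 : (i, j) ∈ D.TU y)
    (h2 : ((i, j) : ℤ × ℤ) + d.vec ∈ D.TU y) :
    (zsurf D.l D.r x y y y).nb d (.inr (i, j)) = some (.inr ((i, j) + d.vec)) := by
  cases d with
  | E =>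
    rw [zs_E_up_open (by omega)]
    congr 2
    ext <;> simp [Dir.vec]
  | N =>
    rw [zs_N_up]
    · congr 2
      ext <;> simp [Dir.vec]
    · rintro ⟨rfl, h3, h4⟩
      exact notMem_TU hb ht (i := i) (by omega) (by omega) h1
  | W =>
    have h3 : (Sum.inr (i, j) : ZT) ∈ (zsurf D.l D.r x y y y).nb .E (.inr (i - 1, j)) := by
      rw [zs_E_up_open (by omega)]
      simp
    have h4 : (Sum.inr (i - 1, j) : ZT) ∈ (zsurf D.l D.r x y y y).nb .W (.inr (i, j)) :=
      Surf.mem_nb.1 h3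
    rw [Option.mem_def] at h4
    rw [h4]
    congr 2
    ext <;> simp [Dir.vec, sub_eq_add_neg]
  | S =>
    rw [zs_S_up]
    · congr 2
      ext <;> simp [Dir.vec, sub_eq_add_neg]
    · rintro ⟨rfl, h3, h4⟩
      refine notMem_TU hb ht (i := i) (by omega) (by omega) ?_
      have : ((i, j) : ℤ × ℤ) + Dir.S.vec = (i, j - 1) := by
        ext <;> simp [Dir.vec, sub_eq_add_neg]
      rwa [this] at h2

lemma g0_low {i j : ℤ} {d : Dir} : D.g0 y (.inl (i, j), d) =
    if (i, j) ∈ D.TL y ∧ ((i, j) : ℤ × ℤ) + d.vec ∈ D.TL y then (.inl ((i, j) + d.vec), d.opp)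
      else (.inl (i, j), d) := by
  show (Sum.inl (plane.glue (D.TL y) ((i, j), d)).1, (plane.glue (D.TL y) ((i, j), d)).2) = _
  rw [plane_glue]
  split_ifs <;> rfl

lemma g0_up {i j : ℤ} {d : Dir} : D.g0 y (.inr (i, j), d) =
    if (i, j) ∈ D.TU y ∧ ((i, j) : ℤ × ℤ) + d.vec ∈ D.TU y then (.inr ((i, j) + d.vec), d.opp)
      else (.inr (i, j), d) := by
  show (Sum.inr (plane.glue (D.TU y) ((i, j), d)).1, (plane.glue (D.TU y) ((i, j), d)).2) = _
  rw [plane_glue]
  split_ifs <;> rfl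

theorem ext_go (hb : D.b ≤ y) (ht : y ≤ D.t) : Ext (D.T y) (D.g0 y) (D.go x y) := by
  refine ⟨glu_go, ?_⟩
  rintro ⟨⟨i, j⟩ | ⟨i, j⟩, d⟩ h
  · rw [g0_low] at h ⊢
    split_ifs at h ⊢ with h1
    · exact Surf.glue_of_mem (by rw [nb_low hb ht h1.1 h1.2]; rfl) (inl_mem.2 h1.1) (inl_mem.2 h1.2)
    · exact absurd rfl h
  · rw [g0_up] at h ⊢
    split_ifs at h ⊢ with h1
    · exact Surf.glue_of_mem (by rw [nb_up hb ht h1.1 h1.2]; rfl) (inr_mem.2 h1.1) (inr_mem.2 h1.2)
    · exact absurd rfl h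

/-- across the line `y`, left of `z` -/
lemma go_left' (hb : D.b < y) (hx : x ≤ D.r) {i : ℤ} (h1 : D.l ≤ i) (h2 : i < x)
    (hU : (i, y) ∈ D.TU y) : D.go x y (.inl (i, y - 1), .N) = (.inr (i, y), .S) :=
  Surf.glue_of_mem (by rw [zs_N_left h1 h2 (by omega)]; rfl)
    (inl_mem.2 (mem_TL_row hb h1 (by omega))) (inr_mem.2 hU)

lemma go_left (hb : D.b < y) (ht : y < D.t) (hx : x ≤ D.r) {i : ℤ} (h1 : D.l ≤ i) (h2 : i < x) :
    D.go x y (.inl (i, y - 1), .N) = (.inr (i, y), .S) :=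
  go_left' hb hx h1 h2 (mem_TU_row ht h1 (by omega))

/-- across the line `y`, right of `z` -/
lemma go_right' (hb : D.b < y) (hx : D.l ≤ x) {i : ℤ} (h1 : x < i) (h2 : i ≤ D.r)
    (hU : (i - 1, y) ∈ D.TU y) : D.go x y (.inl (i, y - 1), .N) = (.inr (i - 1, y), .S) :=
  Surf.glue_of_mem (by rw [zs_N_right (by omega) h1 h2]; rfl)
    (inl_mem.2 (mem_TL_row hb (by omega) (by omega))) (inr_mem.2 hU)

lemma go_right (hb : D.b < y) (ht : y < D.t) (hx : D.l ≤ x) {i : ℤ} (h1 : x < i) (h2 : i ≤ D.r) :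
    D.go x y (.inl (i, y - 1), .N) = (.inr (i - 1, y), .S) :=
  go_right' hb hx h1 h2 (mem_TU_row ht (by omega) (by omega))

lemma go_z (h1 : D.l ≤ x) (h2 : x ≤ D.r) : D.go x y (z x y) = z x y := by
  show Surf.glue _ _ (Sum.inl (x, y - 1), Dir.N) = _
  unfold Surf.glue
  rw [zs_N_z h1 h2]
  rfl

/-- the new glued sides -/
lemma new_side (hb : D.b ≤ y) (ht : y ≤ D.t) {w : Half ZT} (h0 : D.g0 y w = w) (h : D.go x y w ≠ w) :
    (∃ i, D.l ≤ i ∧ i ≤ D.r ∧ i ≠ x ∧ w = (.inl (i, y - 1), .N) ∧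
      ((i < x ∧ i < D.r ∧ (i, y) ∈ D.TU y) ∨ (x < i ∧ D.l < i ∧ (i - 1, y) ∈ D.TU y))) ∨
    (∃ i, D.l ≤ i ∧ i < D.r ∧ (i, y) ∈ D.TU y ∧ w = (.inr (i, y), .S) ∧
      ((i < x ∧ D.go x y w = (.inl (i, y - 1), .N)) ∨
        (x ≤ i ∧ D.go x y w = (.inl (i + 1, y - 1), .N)))) := by
  obtain ⟨t', h1, h2, h3⟩ := Surf.glue_ne_iff.1 h
  obtain ⟨⟨i, j⟩ | ⟨i, j⟩, d⟩ := w
  · left
    rw [g0_low] at h0
    have h2' := inl_mem.1 h2
    cases d with
    | E =>
      exfalso
      rw [zs_E_low_open (by omega), Option.mem_some_iff] at h1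
      subst h1
      have h3' := inl_mem.1 h3
      have e : ((i, j) : ℤ × ℤ) + Dir.E.vec = (i + 1, j) := by ext <;> simp [Dir.vec]
      rw [e, if_pos ⟨h2', h3'⟩] at h0
      exact Dir.opp_ne .E (congrArg Prod.snd h0)
    | N =>
      by_cases hc : j = y - 1 ∧ D.l ≤ i ∧ i ≤ D.r
      · obtain ⟨rfl, hc1, hc2⟩ := hc
        have hix : i ≠ x := by
          rintro rfl
          rw [zs_N_z hc1 hc2] at h1
          exact absurd h1 (by simp)
        refine ⟨i, hc1, hc2, hix, rfl, ?_⟩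
        rcases lt_or_gt_of_ne hix with h4 | h4
        · left
          by_cases h5 : i < D.r
          · rw [zs_N_left hc1 h4 h5, Option.mem_some_iff] at h1
            subst h1
            exact ⟨h4, h5, inr_mem.1 h3⟩
          · exfalso
            have h6 : (zsurf D.l D.r x y y y).nb .N (.inl (i, y - 1)) = none := by
              show (if y - 1 = y - 1 ∧ D.l ≤ i ∧ i ≤ D.r then (if i < x ∧ i < D.r then
                some (Sum.inr (i, y)) else if x < i ∧ D.l < i then some (Sum.inr (i - 1, y)) else none)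
                else some (Sum.inl (i, y - 1 + 1))) = _
              rw [if_pos ⟨rfl, hc1, hc2⟩, if_neg (by omega), if_neg (by omega)]
            rw [h6] at h1
            exact absurd h1 (by simp)
        · right
          by_cases h5 : D.l < i
          · rw [zs_N_right h5 h4 hc2, Option.mem_some_iff] at h1
            subst h1
            exact ⟨h4, h5, inr_mem.1 h3⟩
          · exfalso
            have h6 : (zsurf D.l D.r x y y y).nb .N (.inl (i, y - 1)) = none := by
              show (if y - 1 = y - 1 ∧ D.l ≤ i ∧ i ≤ D.r then (if i < x ∧ i < D.r then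
                some (Sum.inr (i, y)) else if x < i ∧ D.l < i then some (Sum.inr (i - 1, y)) else none)
                else some (Sum.inl (i, y - 1 + 1))) = _
              rw [if_pos ⟨rfl, hc1, hc2⟩, if_neg (by omega), if_neg (by omega)]
            rw [h6] at h1
            exact absurd h1 (by simp)
      · exfalso
        rw [zs_N_low hc, Option.mem_some_iff] at h1
        subst h1
        have h3' := inl_mem.1 h3
        have e : ((i, j) : ℤ × ℤ) + Dir.N.vec = (i, j + 1) := by ext <;> simp [Dir.vec]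
        rw [e, if_pos ⟨h2', h3'⟩] at h0
        exact Dir.opp_ne .N (congrArg Prod.snd h0)
    | W =>
      exfalso
      have h4 : (Sum.inl (i - 1, j) : ZT) ∈ (zsurf D.l D.r x y y y).nb .W (.inl (i, j)) := by
        refine Surf.mem_nb.1 (?_ : (Sum.inl (i, j) : ZT) ∈ (zsurf D.l D.r x y y y).nb .E (.inl (i - 1, j)))
        rw [zs_E_low_open (by omega)]
        simp
      have h5 : t' = Sum.inl (i - 1, j) := by
        rw [Option.mem_def] at h1 h4
        rw [h4] at h1
        exact (Option.some.inj h1).symm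
      subst h5
      have h3' := inl_mem.1 h3
      have e : ((i, j) : ℤ × ℤ) + Dir.W.vec = (i - 1, j) := by
        ext <;> simp [Dir.vec, sub_eq_add_neg]
      rw [e, if_pos ⟨h2', h3'⟩] at h0
      exact Dir.opp_ne .W (congrArg Prod.snd h0)
    | S =>
      exfalso
      by_cases hc : j = y ∧ D.l ≤ i ∧ i ≤ D.r
      · obtain ⟨rfl, hc1, hc2⟩ := hc
        exact notMem_TL hb ht (i := i) (by omega) (by omega) h2'
      · rw [zs_S_low hc, Option.mem_some_iff] at h1
        subst h1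
        have h3' := inl_mem.1 h3
        have e : ((i, j) : ℤ × ℤ) + Dir.S.vec = (i, j - 1) := by
          ext <;> simp [Dir.vec, sub_eq_add_neg]
        rw [e, if_pos ⟨h2', h3'⟩] at h0
        exact Dir.opp_ne .S (congrArg Prod.snd h0)
  · right
    rw [g0_up] at h0
    have h2' := inr_mem.1 h2
    cases d with
    | E =>
      exfalso
      rw [zs_E_up_open (by omega), Option.mem_some_iff] at h1
      subst h1
      have h3' := inr_mem.1 h3
      have e : ((i, j) : ℤ × ℤ) + Dir.E.vec = (i + 1, j) := by ext <;> simp [Dir.vec]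
      rw [e, if_pos ⟨h2', h3'⟩] at h0
      exact Dir.opp_ne .E (congrArg Prod.snd h0)
    | N =>
      exfalso
      by_cases hc : j = y - 1 ∧ D.l ≤ i ∧ i < D.r
      · obtain ⟨rfl, hc1, hc2⟩ := hc
        exact notMem_TU hb ht (i := i) (by omega) (by omega) h2'
      · rw [zs_N_up hc, Option.mem_some_iff] at h1
        subst h1
        have h3' := inr_mem.1 h3
        have e : ((i, j) : ℤ × ℤ) + Dir.N.vec = (i, j + 1) := by ext <;> simp [Dir.vec]
        rw [e, if_pos ⟨h2', h3'⟩] at h0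
        exact Dir.opp_ne .N (congrArg Prod.snd h0)
    | W =>
      exfalso
      have h4 : (Sum.inr (i - 1, j) : ZT) ∈ (zsurf D.l D.r x y y y).nb .W (.inr (i, j)) := by
        refine Surf.mem_nb.1 (?_ : (Sum.inr (i, j) : ZT) ∈ (zsurf D.l D.r x y y y).nb .E (.inr (i - 1, j)))
        rw [zs_E_up_open (by omega)]
        simp
      have h5 : t' = Sum.inr (i - 1, j) := by
        rw [Option.mem_def] at h1 h4
        rw [h4] at h1
        exact (Option.some.inj h1).symm
      subst h5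
      have h3' := inr_mem.1 h3
      have e : ((i, j) : ℤ × ℤ) + Dir.W.vec = (i - 1, j) := by
        ext <;> simp [Dir.vec, sub_eq_add_neg]
      rw [e, if_pos ⟨h2', h3'⟩] at h0
      exact Dir.opp_ne .W (congrArg Prod.snd h0)
    | S =>
      by_cases hc : j = y ∧ D.l ≤ i ∧ i < D.r
      · obtain ⟨rfl, hc1, hc2⟩ := hc
        refine ⟨i, hc1, hc2, h2', rfl, ?_⟩
        have h4 : D.go x j (.inr (i, j), .S) = (t', Dir.S.opp) := Surf.glue_of_mem h1 h2 h3
        rw [h4]
        rcases lt_or_ge i x with h5 | h5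
        · rw [zs_S_left hc1 hc2 h5, Option.mem_some_iff] at h1
          exact Or.inl ⟨h5, by rw [← h1]; rfl⟩
        · rw [zs_S_right hc1 hc2 h5, Option.mem_some_iff] at h1
          exact Or.inr ⟨h5, by rw [← h1]; rfl⟩
      · exfalso
        rw [zs_S_up hc, Option.mem_some_iff] at h1
        subst h1
        have h3' := inr_mem.1 h3
        have e : ((i, j) : ℤ × ℤ) + Dir.S.vec = (i, j - 1) := by
          ext <;> simp [Dir.vec, sub_eq_add_neg]
        rw [e, if_pos ⟨h2', h3'⟩] at h0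
        exact Dir.opp_ne .S (congrArg Prod.snd h0)

lemma new_low (hb : D.b ≤ y) (ht : y ≤ D.t) {w : Half ZT} (h0 : D.g0 y w = w) (h : D.go x y w ≠ w) :
    (∃ i, D.l ≤ i ∧ i ≤ D.r ∧ i ≠ x ∧ w = (.inl (i, y - 1), .N)) ∨
    (∃ i, w = (.inr (i, y), .S) ∧ (D.go x y w).1.isLeft = true) := by
  rcases new_side hb ht h0 h with ⟨i, h1, h2, h3, h4, -⟩ | ⟨i, -, -, -, h4, ⟨-, h5⟩ | ⟨-, h5⟩⟩
  · exact Or.inl ⟨i, h1, h2, h3, h4⟩
  · exact Or.inr ⟨i, h4, by rw [h5]; rfl⟩
  · exact Or.inr ⟨i, h4, by rw [h5]; rfl⟩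

/-- **the domain with the interior end `z = (x, y)` is simply connected relative to `z`**, if its two
sheets are simply connected and every part of the upper sheet (label `lab`) is attached to the line `y`
along one run -/
theorem scz_go_lab {ι : Type*} (hL : SC (D.TL y) (plane.glue (D.TL y)))
    (hU : SC (D.TU y) (plane.glue (D.TU y)))
    (hb : D.b < y) (ht : y ≤ D.t) (hx : D.l ≤ x) (hx' : x ≤ D.r) (lab : ℤ × ℤ → ι)
    (hlab : ∀ (t : ℤ × ℤ) (d : Dir), t ∈ D.TU y → t + d.vec ∈ D.TU y → lab (t + d.vec) = lab t)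
    (hrun : ∀ i i', D.l ≤ i → i < i' → i' < D.r → (i, y) ∈ D.TU y → (i', y) ∈ D.TU y →
      lab (i, y) = lab (i', y) → ∀ k, i ≤ k → k ≤ i' → (k, y) ∈ D.TU y) :
    SCz (D.T y) (D.go x y) (z x y) := by
  classical
  have hlr := D.hlr
  have hS0 : SC (D.T y) (D.g0 y) := hL.sum hU
  refine Glu.sc_glue_fun hS0 (ext_go hb.le ht) _ ?_
  intro c χ hc h1 h2 h3
  -- the corners of the line `y` in the lower sheet
  set A : ℤ → ZMod 2 := fun i => if i ≤ D.r then c (.inl (i, y - 1), .W) else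
    c (.inl (D.r, y - 1), .N) with hA
  set B : ℤ → ZMod 2 := fun i => c (.inr (i, y), .S) with hB
  have a1 : ∀ i, D.l ≤ i → i ≤ D.r → c (.inl (i, y - 1), .N) = A (i + 1) := by
    intro i hi hi'
    rcases eq_or_lt_of_le hi' with rfl | h4
    · simp only [hA]
      rw [if_neg (by omega)]
    · simp only [hA]
      rw [if_pos (by omega)]
      have e : D.g0 y (.inl (i, y - 1), .E) = (.inl (i + 1, y - 1), .W) := by
        have e1 : ((i, y - 1) : ℤ × ℤ) + Dir.E.vec = (i + 1, y - 1) := by ext <;> simp [Dir.vec]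
        rw [g0_low, e1, if_pos ⟨mem_TL_row hb hi hi', mem_TL_row hb (by omega) (by omega)⟩]
        rfl
      have e2 := hc (.inl (i, y - 1), .E) (by
        rw [e]; intro h; exact Dir.opp_ne .E (congrArg Prod.snd h))
      rw [e] at e2
      exact e2.symm
  have a2 : ∀ i, D.l ≤ i → i ≤ D.r → A i = A (i + 1) + χ (.inl (i, y - 1), .N) := by
    intro i hi hi'
    rw [← a1 i hi hi']
    have := h3 (.inl (i, y - 1), .N) (inl_mem.2 (mem_TL_row hb hi hi'))
    simp only [hA]
    rw [if_pos hi']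
    exact this
  have b2 : ∀ i, (i, y) ∈ D.TU y → (i + 1, y) ∈ D.TU y →
      B (i + 1) = B i + χ (.inr (i, y), .S) := by
    intro i hi hi'
    have e : D.g0 y (.inr (i + 1, y), .W) = (.inr (i, y), .E) := by
      have e1 : ((i + 1, y) : ℤ × ℤ) + Dir.W.vec = (i, y) := by ext <;> simp [Dir.vec]
      rw [g0_up, e1, if_pos ⟨hi', hi⟩]
      rfl
    have e2 := hc (.inr (i + 1, y), .W) (by
      rw [e]; intro h; exact Dir.opp_ne .W (congrArg Prod.snd h))
    rw [e] at e2
    have e3 := h3 (.inr (i, y), .S) (inr_mem.2 hi)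
    simp only [hB]
    exact (e2.symm.trans e3)
  -- the defect at the upper tile `(i, y)`
  set G : ℤ → ZMod 2 := fun i => if i < x then A i + B i else A (i + 1) + B i with hG
  have hstep : ∀ i, D.l ≤ i → i + 1 < D.r → (i, y) ∈ D.TU y → (i + 1, y) ∈ D.TU y →
      G (i + 1) = G i := by
    intro i hi hi' m1 m2
    simp only [hG]
    rcases lt_trichotomy (i + 1) x with h4 | h4 | h4
    · rw [if_pos h4, if_pos (by omega), a2 i hi (by omega), b2 i m1 m2]
      have e := h1 (.inl (i, y - 1), .N)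
      rw [go_left' hb hx' hi (by omega) m1] at e
      rw [e]
      ring
    · rw [if_neg (by omega), if_pos (by omega), a2 i hi (by omega), b2 i m1 m2]
      have e := h1 (.inl (i, y - 1), .N)
      rw [go_left' hb hx' hi (by omega) m1] at e
      have e0 : χ (.inl (i + 1, y - 1), .N) = 0 := by rw [h4]; exact h2
      have e1 := a2 (i + 1) (by omega) (by omega)
      rw [e0, add_zero] at e1
      rw [e, ← e1]
      ring
    · rw [if_neg (by omega), if_neg (by omega), a2 (i + 1) (by omega) (by omega), b2 i m1 m2]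
      have e := h1 (.inl (i + 1, y - 1), .N)
      have m1' : (i + 1 - 1, y) ∈ D.TU y := by rwa [add_sub_cancel_right]
      rw [go_right' hb hx (by omega) (by omega) m1', add_sub_cancel_right] at e
      rw [e]
      ring
  have hrunG : ∀ (n : ℕ) (i : ℤ), D.l ≤ i → i + n < D.r → (∀ k, i ≤ k → k ≤ i + n → (k, y) ∈ D.TU y) →
      G (i + n) = G i := by
    intro n i hi hn hk
    induction n with
    | zero => rw [Nat.cast_zero, add_zero]
    | succ n ih =>
      push_cast at hn hk ⊢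
      rw [← add_assoc, hstep _ (by omega) (by omega) (hk _ (by omega) (by omega))
        (hk _ (by omega) (by omega)), ih (by omega) fun k h1 h2 => hk k h1 (by omega)]
  have hlabG : ∀ i i', D.l ≤ i → i < D.r → D.l ≤ i' → i' < D.r → (i, y) ∈ D.TU y → (i', y) ∈ D.TU y →
      lab (i, y) = lab (i', y) → G i = G i' := by
    have key : ∀ i i', D.l ≤ i → i < i' → i' < D.r → (i, y) ∈ D.TU y → (i', y) ∈ D.TU y →
        lab (i, y) = lab (i', y) → G i' = G i := by
      intro i i' e1 e2 e3 e4 e5 e6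
      have e7 := hrun i i' e1 e2 e3 e4 e5 e6
      have e8 := hrunG (i' - i).toNat i e1 (by omega) fun k h1 h2 => e7 k h1 (by omega)
      rwa [show i + ((i' - i).toNat : ℤ) = i' by omega] at e8
    intro i i' e1 e2 e3 e4 e5 e6 e7
    rcases lt_trichotomy i i' with h | h | h
    · exact (key i i' e1 h e4 e5 e6 e7).symm
    · rw [h]
    · exact key i' i e3 h e2 e6 e5 e7.symm
  set κ : ι → ZMod 2 := fun a => if h : ∃ i, D.l ≤ i ∧ i < D.r ∧ (i, y) ∈ D.TU y ∧ lab (i, y) = a then
    G h.choose else 0 with hκ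
  have hκG : ∀ i, D.l ≤ i → i < D.r → (i, y) ∈ D.TU y → κ (lab (i, y)) = G i := by
    intro i e1 e2 e3
    have hex : ∃ i', D.l ≤ i' ∧ i' < D.r ∧ (i', y) ∈ D.TU y ∧ lab (i', y) = lab (i, y) :=
      ⟨i, e1, e2, e3, rfl⟩
    simp only [hκ]
    rw [dif_pos hex]
    obtain ⟨f1, f2, f3, f4⟩ := hex.choose_spec
    exact hlabG _ _ f1 f2 e1 e2 f3 e3 f4
  refine ⟨fun t => match t with
    | .inl _ => 0
    | .inr t => κ (lab t), ?_, ?_⟩
  · rintro ⟨⟨i, j⟩ | ⟨i, j⟩, d⟩ hw
    · rw [g0_low]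
      split_ifs <;> rfl
    · rw [g0_up]
      split_ifs with h
      · show κ (lab ((i, j) + d.vec)) = κ (lab (i, j))
        rw [hlab (i, j) d h.1 h.2]
      · rfl
  · intro w h0 h
    rcases new_side hb.le ht h0 h with ⟨i, i1, i2, i3, rfl, i4⟩ | ⟨i, i1, i2, i3, rfl, i4⟩
    · have e1 : c (rho ((.inl (i, y - 1), .N) : Half ZT)) = A i := by
        simp only [hA]
        rw [if_pos i2]
        rfl
      rw [e1]
      rcases i4 with ⟨j1, j2, j3⟩ | ⟨j1, j2, j3⟩
      · rw [go_left' hb hx' i1 j1 j3]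
        show c (.inr (i, y), .S) + κ (lab (i, y)) = A i + 0
        rw [hκG i i1 j2 j3]
        simp only [hG]
        rw [if_pos j1]
        have := CharTwo.add_self_eq_zero (B i)
        linear_combination this
      · rw [go_right' hb hx j1 i2 j3]
        show c (.inr (i - 1, y), .S) + κ (lab (i - 1, y)) = A i + 0
        rw [hκG (i - 1) (by omega) (by omega) j3]
        simp only [hG]
        rw [if_neg (by omega), sub_add_cancel]
        have := CharTwo.add_self_eq_zero (B (i - 1))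
        linear_combination this
    · have e3 := h3 (.inr (i, y), .S) (inr_mem.2 i3)
      have e4 := h1 (.inr (i, y), .S)
      rcases i4 with ⟨j1, j2⟩ | ⟨j1, j2⟩
      · rw [j2] at e4 ⊢
        show c (.inl (i, y - 1), .N) + 0 = c (rho ((.inr (i, y), .S) : Half ZT)) + κ (lab (i, y))
        rw [hκG i i1 i2 i3, e3]
        simp only [hG]
        rw [if_pos j1, a1 i i1 (by omega), a2 i i1 (by omega), e4]
        have h6 := CharTwo.add_self_eq_zero (B i)
        have h7 := CharTwo.add_self_eq_zero (χ (.inr (i, y), .S))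
        linear_combination -h6 - h7
      · rw [j2] at e4 ⊢
        show c (.inl (i + 1, y - 1), .N) + 0 = c (rho ((.inr (i, y), .S) : Half ZT)) + κ (lab (i, y))
        rw [hκG i i1 i2 i3, e3]
        simp only [hG]
        rw [if_neg (by omega), a1 (i + 1) (by omega) (by omega), a2 (i + 1) (by omega) (by omega), e4]
        have h6 := CharTwo.add_self_eq_zero (B i)
        have h7 := CharTwo.add_self_eq_zero (χ (.inr (i, y), .S))
        linear_combination -h6 - h7

/-- the same for `y` below the ceiling -/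
theorem scz_go_of_sc (hL : SC (D.TL y) (plane.glue (D.TL y))) (hU : SC (D.TU y) (plane.glue (D.TU y)))
    (hb : D.b < y) (ht : y < D.t) (hx : D.l ≤ x) (hx' : x ≤ D.r) :
    SCz (D.T y) (D.go x y) (z x y) :=
  scz_go_lab hL hU hb ht.le hx hx' (fun _ => ()) (fun _ _ _ _ => rfl) fun _ _ h1 h2 h3 _ _ _ k h4 h5 =>
    mem_TU_row ht (by omega) (by omega)

/-- the same if the two sheets have no holes -/
theorem scz_go (hL : Disc.NoHole (D.TL y : Set (ℤ × ℤ))) (hU : Disc.NoHole (D.TU y : Set (ℤ × ℤ)))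
    (hb : D.b < y) (ht : y < D.t) (hx : D.l ≤ x) (hx' : x ≤ D.r) :
    SCz (D.T y) (D.go x y) (z x y) :=
  scz_go_of_sc (plane_sc hL) (plane_sc hU) hb ht hx hx'

end Slab

end Full
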