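import Pool.Agent.Full.Disc.Next
import Pool.Agent.Full.Def.SCz

/-!
# Gluing simply connected regions

* `Glu.sc_glue_fun`, `Glu.sc_glue` : gluing of parts: if the defect of every corner function is constant
  on the new glued sides, the new region is simply connected (relative to `z`);
* `sumGlue`, `Glu.sum`, `SC.sum` : disjoint union of two regions.
-/

set_option autoImplicit false

namespace Full
open Function Relation

section glue
variable {τ : Type*} {T : Finset τ} {g0 g : Half τ → Half τ}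

/-- the relative form is stable under restriction of the cochains -/
theorem sc_of_scz (z : Half τ) (hz : ∀ χ : Half τ → ZMod 2, (∀ x, χ (g x) = χ x) →
    (∀ t ∈ T, ∑ d, χ (t, d) = 0) → χ z = 0) (h : SCz T g z) : SC T g :=
  fun χ h1 h2 => h χ h1 h2 (hz χ h1 h2)

/-- **gluing lemma**: the old region `(T, g0)` is simply connected.  If the defects of the old corner
functions on the new glued sides can be removed by adding a function `k` of the components of the old
region, the new region is simply connected relative to `z` -/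
theorem Glu.sc_glue_fun (hS : SC T g0) (h : Ext T g0 g) (z : Half τ)
    (hc : ∀ c χ : Half τ → ZMod 2, Corner g0 c → (∀ x, χ (g x) = χ x) → χ z = 0 →
      (∀ x : Half τ, x.1 ∈ T → c (rho x) = c x + χ x) →
      ∃ k : τ → ZMod 2, (∀ x : Half τ, x.1 ∈ T → k (g0 x).1 = k x.1) ∧
        ∀ x, g0 x = x → g x ≠ x → c (g x) + k (g x).1 = c (rho x) + k x.1) : SCz T g z := by
  intro χ h1 h2 h3
  have h4 : ∀ x, χ (g0 x) = χ x := by
    intro x
    by_cases hx : g0 x = x
    · rw [hx]
    · rw [← h.ext x hx, h1]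
  obtain ⟨c, hc1, hc2⟩ := hS χ h4 h2
  obtain ⟨k, hk, hk2⟩ := hc c χ hc1 h1 h3 hc2
  refine ⟨fun x => c x + k x.1, fun x hx => ?_, fun x hx => ?_⟩
  · have hxT : x.1 ∈ T := by
      by_contra hxT
      exact hx (h.toGlu.out x hxT)
    by_cases hx0 : g0 x = x
    · exact hk2 x hx0 hx
    · rw [h.ext x hx0]
      show c (g0 x) + k (g0 x).1 = c (rho x) + k x.1
      rw [hc1 x hx0, hk x hxT]
  · show c (rho x) + k x.1 = c x + k x.1 + χ x
    rw [hc2 x hx]
    ring

/-- **gluing of two parts**: the new gluing `g` joins only sides of `P` tiles to sides of other tiles, and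
`P` is a union of components of the old region.  If the defect of the old corner functions is constant
along the new seam, the new region is simply connected -/
theorem Glu.sc_glue (hG0 : Glu T g0) (hS : SC T g0) (h : Ext T g0 g) (P : τ → Prop)
    (hP : ∀ x : Half τ, x.1 ∈ T → (P (g0 x).1 ↔ P x.1))
    (hnew : ∀ x, g0 x = x → g x ≠ x → (P (g x).1 ↔ ¬ P x.1)) (z : Half τ)
    (hc : ∀ c χ : Half τ → ZMod 2, Corner g0 c → (∀ x, χ (g x) = χ x) → χ z = 0 →
      (∀ x : Half τ, x.1 ∈ T → c (rho x) = c x + χ x) →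
      ∃ k, ∀ x, g0 x = x → g x ≠ x → P x.1 → c (g x) = c (rho x) + k) : SCz T g z := by
  classical
  refine Glu.sc_glue_fun hS h z fun c χ hc1 h1 h3 hc2 => ?_
  obtain ⟨k, hk⟩ := hc c χ hc1 h1 h3 hc2
  refine ⟨fun t => if P t then k else 0, fun x hx => ?_, fun x hx0 hx => ?_⟩
  · beta_reduce
    by_cases hPx : P x.1
    · rw [if_pos hPx, if_pos ((hP x hx).2 hPx)]
    · rw [if_neg hPx, if_neg (fun h' => hPx ((hP x hx).1 h'))]
  · have hxT : x.1 ∈ T := by
      by_contra hxT
      exact hx (h.toGlu.out x hxT)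
    have hp := hnew x hx0 hx
    beta_reduce
    by_cases hPx : P x.1
    · rw [if_neg (fun h' => hp.1 h' hPx), if_pos hPx, add_zero]
      exact hk x hx0 hx hPx
    · rw [if_pos (hp.2 hPx), if_neg hPx, add_zero]
      have g1 : g0 (g x) = g x := by
        by_contra hne
        have e1 := h.ext _ hne
        rw [h.toGlu.inv] at e1
        have e2 := congrArg g0 e1
        rw [hG0.inv] at e2
        rw [← e2] at hx
        exact hx hx0
      have g2 : g (g x) ≠ g x := by
        rw [h.toGlu.inv]; exact Ne.symm hx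
      have g3 := hk (g x) g1 g2 (hp.2 hPx)
      rw [h.toGlu.inv] at g3
      have g4 := hc2 (g x) (h.toGlu.mem x hxT)
      rw [g4, h1] at g3
      rw [hc2 x hxT, g3]
      have a1 := CharTwo.add_self_eq_zero (χ x)
      linear_combination -a1

end glue

/-! ### disjoint unions -/

section sum
variable {τ σ : Type*}

/-- the gluing of a disjoint union -/
def sumGlue (g1 : Half τ → Half τ) (g2 : Half σ → Half σ) : Half (τ ⊕ σ) → Half (τ ⊕ σ)
  | (.inl t, d) => (Sum.inl (g1 (t, d)).1, (g1 (t, d)).2)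
  | (.inr t, d) => (Sum.inr (g2 (t, d)).1, (g2 (t, d)).2)

variable {g1 : Half τ → Half τ} {g2 : Half σ → Half σ} {T1 : Finset τ} {T2 : Finset σ}

theorem Glu.sum (h1 : Glu T1 g1) (h2 : Glu T2 g2) : Glu (T1.disjSum T2) (sumGlue g1 g2) := by
  refine ⟨?_, ?_, ?_⟩
  · rintro ⟨t | t, d⟩
    · show (Sum.inl (g1 (g1 (t, d))).1, (g1 (g1 (t, d))).2) = ((Sum.inl t, d) : Half (τ ⊕ σ))
      rw [h1.inv]
    · show (Sum.inr (g2 (g2 (t, d))).1, (g2 (g2 (t, d))).2) = ((Sum.inr t, d) : Half (τ ⊕ σ))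
      rw [h2.inv]
  · rintro ⟨t | t, d⟩ hx
    · exact Finset.inl_mem_disjSum.2 (h1.mem (t, d) (Finset.inl_mem_disjSum.1 hx))
    · exact Finset.inr_mem_disjSum.2 (h2.mem (t, d) (Finset.inr_mem_disjSum.1 hx))
  · rintro ⟨t | t, d⟩ hx
    · show (Sum.inl (g1 (t, d)).1, (g1 (t, d)).2) = ((Sum.inl t, d) : Half (τ ⊕ σ))
      rw [h1.out (t, d) (fun h => hx (Finset.inl_mem_disjSum.2 h))]
    · show (Sum.inr (g2 (t, d)).1, (g2 (t, d)).2) = ((Sum.inr t, d) : Half (τ ⊕ σ))
      rw [h2.out (t, d) (fun h => hx (Finset.inr_mem_disjSum.2 h))]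

theorem SC.sum (h1 : SC T1 g1) (h2 : SC T2 g2) : SC (T1.disjSum T2) (sumGlue g1 g2) := by
  intro χ e1 e2
  obtain ⟨c1, a1, a2⟩ := h1 (fun x => χ (Sum.inl x.1, x.2)) (fun x => e1 (Sum.inl x.1, x.2))
    (fun t ht => e2 _ (Finset.inl_mem_disjSum.2 ht))
  obtain ⟨c2, b1, b2⟩ := h2 (fun x => χ (Sum.inr x.1, x.2)) (fun x => e1 (Sum.inr x.1, x.2))
    (fun t ht => e2 _ (Finset.inr_mem_disjSum.2 ht))
  refine ⟨fun x => match x with
    | (.inl t, d) => c1 (t, d)
    | (.inr t, d) => c2 (t, d), ?_, ?_⟩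
  · rintro ⟨t | t, d⟩ hx
    · refine a1 (t, d) fun h => hx ?_
      show (Sum.inl (g1 (t, d)).1, (g1 (t, d)).2) = ((Sum.inl t, d) : Half (τ ⊕ σ))
      rw [h]
    · refine b1 (t, d) fun h => hx ?_
      show (Sum.inr (g2 (t, d)).1, (g2 (t, d)).2) = ((Sum.inr t, d) : Half (τ ⊕ σ))
      rw [h]
  · rintro ⟨t | t, d⟩ hx
    · exact a2 (t, d) (Finset.inl_mem_disjSum.1 hx)
    · exact b2 (t, d) (Finset.inr_mem_disjSum.1 hx)

end sum

end Full
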