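import Mathlib

/-!
# Cochains mod 2 on the square lattice

`V i j` is the value on the edge from the vertex `(i, j)` to `(i, j + 1)` (left side of the cell
`(i, j)`), `H i j` on the edge from `(i, j)` to `(i + 1, j)` (lower side of the cell `(i, j)`).
* `exact` : a closed cochain on the plane is exact;
* `extend` : if every cell outside the finite set `T` can be joined to infinity outside `T`, then a
  cochain which is closed on the cells of `T` agrees, on the sides of the cells of `T`, with a cochain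
  closed on the plane.
-/

set_option autoImplicit false

namespace Full.Disc

/-- sum over the four sides of the cell `(i, j)` -/
def dd (V H : ℤ → ℤ → ZMod 2) (i j : ℤ) : ZMod 2 := V i j + V (i + 1) j + H i j + H i (j + 1)

theorem z2_add_self (x : ZMod 2) : x + x = 0 := CharTwo.add_self_eq_zero x

/-- antiderivative on `ℤ` -/
theorem prim (g : ℤ → ZMod 2) : ∃ G : ℤ → ZMod 2, G 0 = 0 ∧ ∀ x, G (x + 1) = G x + g x := by
  refine ⟨fun x => ∑ k ∈ Finset.Ico (min x 0) (max x 0), g k, by simp, fun x => ?_⟩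
  rcases le_or_gt 0 x with h | h
  · have e1 : min (x + 1) 0 = 0 := by omega
    have e2 : max (x + 1) 0 = x + 1 := by omega
    have e3 : min x 0 = 0 := by omega
    have e4 : max x 0 = x := by omega
    simp only [e1, e2, e3, e4]
    have : Finset.Ico (0 : ℤ) (x + 1) = insert x (Finset.Ico 0 x) := by
      ext y; simp only [Finset.mem_Ico, Finset.mem_insert]; omega
    rw [this, Finset.sum_insert (by simp), add_comm]
  · have e1 : min (x + 1) 0 = x + 1 := by omega
    have e2 : max (x + 1) 0 = 0 := by omega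
    have e3 : min x 0 = x := by omega
    have e4 : max x 0 = 0 := by omega
    simp only [e1, e2, e3, e4]
    have : Finset.Ico x (0 : ℤ) = insert x (Finset.Ico (x + 1) 0) := by
      ext y; simp only [Finset.mem_Ico, Finset.mem_insert]; omega
    rw [this, Finset.sum_insert (by simp)]
    have := z2_add_self (g x)
    linear_combination -this

/-- a closed cochain on the plane is exact -/
theorem exact (V H : ℤ → ℤ → ZMod 2) (hc : ∀ i j, dd V H i j = 0) :
    ∃ F : ℤ → ℤ → ZMod 2, (∀ x y, F (x + 1) y = F x y + H x y) ∧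
      (∀ x y, F x (y + 1) = F x y + V x y) := by
  obtain ⟨G, -, hG⟩ := prim fun x => H x 0
  choose K hK0 hK using fun x : ℤ => prim (V x)
  refine ⟨fun x y => G x + K x y, fun x y => ?_, fun x y => ?_⟩
  · induction y using Int.induction_on with
    | zero => simp only [hK0, hG]; ring
    | succ y ih =>
      have h := hc x y
      unfold dd at h
      have h2 := z2_add_self (V x y)
      have h3 := z2_add_self (V (x + 1) y)
      have h4 := z2_add_self (H x y)
      have h5 := z2_add_self (H x (y + 1))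
      beta_reduce at ih ⊢
      rw [hK, hK]
      linear_combination ih + h - h2 - h5
    | pred y ih =>
      have h := hc x (-(y : ℤ) - 1)
      unfold dd at h
      have e : (-(y : ℤ) - 1 + 1) = -(y : ℤ) := by ring
      rw [e] at h
      have a1 := hK (x + 1) (-(y : ℤ) - 1)
      have a2 := hK x (-(y : ℤ) - 1)
      rw [e] at a1 a2
      have h2 := z2_add_self (V x (-(y : ℤ) - 1))
      have h3 := z2_add_self (V (x + 1) (-(y : ℤ) - 1))
      have h4 := z2_add_self (H x (-(y : ℤ) - 1))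
      have h5 := z2_add_self (H x (-(y : ℤ)))
      beta_reduce at ih ⊢
      linear_combination ih - a1 + a2 + h - h3 - h4
  · beta_reduce; rw [hK]; ring

/-- two cells with a common side -/
inductive Nb : ℤ × ℤ → ℤ × ℤ → Prop
  | right (i j : ℤ) : Nb (i, j) (i + 1, j)
  | left (i j : ℤ) : Nb (i + 1, j) (i, j)
  | up (i j : ℤ) : Nb (i, j) (i, j + 1)
  | down (i j : ℤ) : Nb (i, j + 1) (i, j)

theorem Nb.symm {c d : ℤ × ℤ} (h : Nb c d) : Nb d c := by
  cases h
  · exact .left _ _
  · exact .right _ _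
  · exact .down _ _
  · exact .up _ _

/-- `c` can be joined, by steps across common sides outside `T`, to a cell from which the horizontal
ray to the right avoids `T` -/
def Free (T : Set (ℤ × ℤ)) (c : ℤ × ℤ) : Prop :=
  ∃ d, Relation.ReflTransGen (fun a b => Nb a b ∧ b ∉ T) c d ∧ ∀ i, d.1 ≤ i → (i, d.2) ∉ T

/-- the cochain vanishes on the sides of the cells of `T` -/
def Off (T : Set (ℤ × ℤ)) (V H : ℤ → ℤ → ZMod 2) : Prop :=
  ∀ i j, (i, j) ∈ T → V i j = 0 ∧ V (i + 1) j = 0 ∧ H i j = 0 ∧ H i (j + 1) = 0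

/-- a cochain with its only defect at `c` -/
def Ray (T : Set (ℤ × ℤ)) (c : ℤ × ℤ) : Prop :=
  ∃ V H : ℤ → ℤ → ZMod 2, Off T V H ∧ ∀ i j, dd V H i j = if (i, j) = c then 1 else 0

theorem ray_far {T : Set (ℤ × ℤ)} {d : ℤ × ℤ} (h : ∀ i, d.1 ≤ i → (i, d.2) ∉ T) : Ray T d := by
  obtain ⟨x, y⟩ := d
  refine ⟨fun i j => if j = y ∧ x < i then 1 else 0, fun _ _ => 0, fun i j hT => ?_, fun i j => ?_⟩
  · have h1 : ¬ (j = y ∧ x ≤ i) := by
      rintro ⟨rfl, hi⟩; exact h i hi hT
    refine ⟨if_neg (by omega), if_neg (by omega), rfl, rfl⟩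
  · simp only [dd, Prod.mk.injEq, add_zero]
    by_cases hj : j = y
    · subst hj
      rcases lt_trichotomy i x with hi | rfl | hi
      · rw [if_neg (by omega), if_neg (by omega), if_neg (by omega)]; rfl
      · rw [if_neg (by omega), if_pos (by omega), if_pos (by omega)]; rfl
      · rw [if_pos (by omega), if_pos (by omega), if_neg (by omega)]; rfl
    · rw [if_neg (by omega), if_neg (by omega), if_neg (by omega)]; rfl

theorem ray_step {T : Set (ℤ × ℤ)} {c d : ℤ × ℤ} (hn : Nb c d) (hc : c ∉ T) (hd : d ∉ T)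
    (h : Ray T d) : Ray T c := by
  obtain ⟨V, H, hoff, hdd⟩ := h
  have key : ∃ V' H' : ℤ → ℤ → ZMod 2, Off T V' H' ∧
      ∀ i j, dd V' H' i j = (if (i, j) = c then 1 else 0) + if (i, j) = d then 1 else 0 := by
    have hor : ∀ x y : ℤ, (x, y) ∉ T → (x + 1, y) ∉ T → ∃ V' H' : ℤ → ℤ → ZMod 2, Off T V' H' ∧
        ∀ i j, dd V' H' i j =
          (if (i, j) = (x, y) then 1 else 0) + if (i, j) = (x + 1, y) then 1 else 0 := by
      intro x y h1 h2
      refine ⟨fun i j => if i = x + 1 ∧ j = y then 1 else 0, fun _ _ => 0, fun i j hT => ?_,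
        fun i j => ?_⟩
      · have e1 : ¬ (i = x + 1 ∧ j = y) := by rintro ⟨rfl, rfl⟩; exact h2 hT
        have e2 : ¬ (i + 1 = x + 1 ∧ j = y) := by
          rintro ⟨e, rfl⟩
          have : i = x := by omega
          subst this; exact h1 hT
        exact ⟨if_neg e1, if_neg e2, rfl, rfl⟩
      · simp only [dd, Prod.mk.injEq, add_zero]
        by_cases e1 : i = x ∧ j = y
        · rw [if_neg (by omega), if_pos (by omega), if_pos (by omega)]; rfl
        · by_cases e2 : i = x + 1 ∧ j = y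
          · rw [if_pos (by omega), if_neg (by omega), if_neg (by omega)]; rfl
          · rw [if_neg (by omega), if_neg (by omega), if_neg (by omega)]
    have ver : ∀ x y : ℤ, (x, y) ∉ T → (x, y + 1) ∉ T → ∃ V' H' : ℤ → ℤ → ZMod 2, Off T V' H' ∧
        ∀ i j, dd V' H' i j =
          (if (i, j) = (x, y) then 1 else 0) + if (i, j) = (x, y + 1) then 1 else 0 := by
      intro x y h1 h2
      refine ⟨fun _ _ => 0, fun i j => if i = x ∧ j = y + 1 then 1 else 0, fun i j hT => ?_,
        fun i j => ?_⟩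
      · have e1 : ¬ (i = x ∧ j = y + 1) := by rintro ⟨rfl, rfl⟩; exact h2 hT
        have e2 : ¬ (i = x ∧ j + 1 = y + 1) := by
          rintro ⟨rfl, e⟩
          have : j = y := by omega
          subst this; exact h1 hT
        exact ⟨rfl, rfl, if_neg e1, if_neg e2⟩
      · simp only [dd, Prod.mk.injEq, zero_add]
        by_cases e1 : i = x ∧ j = y
        · rw [if_neg (by omega), if_pos (by omega), if_pos (by omega)]; rfl
        · by_cases e2 : i = x ∧ j = y + 1
          · rw [if_pos (by omega), if_neg (by omega), if_neg (by omega)]; rfl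
          · rw [if_neg (by omega), if_neg (by omega), if_neg (by omega)]
    cases hn with
    | right i j => exact hor i j hc hd
    | left i j =>
      obtain ⟨V', H', h1, h2⟩ := hor i j hd hc
      exact ⟨V', H', h1, fun a b => by rw [h2, add_comm]⟩
    | up i j => exact ver i j hc hd
    | down i j =>
      obtain ⟨V', H', h1, h2⟩ := ver i j hd hc
      exact ⟨V', H', h1, fun a b => by rw [h2, add_comm]⟩
  obtain ⟨V', H', hoff', hdd'⟩ := key
  refine ⟨fun i j => V i j + V' i j, fun i j => H i j + H' i j, fun i j hT => ?_, fun i j => ?_⟩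
  · obtain ⟨a1, a2, a3, a4⟩ := hoff i j hT
    obtain ⟨b1, b2, b3, b4⟩ := hoff' i j hT
    simp only [a1, a2, a3, a4, b1, b2, b3, b4, add_zero, and_self]
  · have h1 := hdd i j
    have h2 := hdd' i j
    unfold dd at h1 h2 ⊢
    have h3 := z2_add_self (if (i, j) = d then (1 : ZMod 2) else 0)
    linear_combination h1 + h2 + h3

theorem ray_of_free {T : Set (ℤ × ℤ)} {c : ℤ × ℤ} (hc : c ∉ T) (h : Free T c) : Ray T c := by
  obtain ⟨d, hcd, hd⟩ := h
  induction hcd using Relation.ReflTransGen.head_induction_on with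
  | refl => exact ray_far hd
  | head hab _ ih => exact ray_step hab.1 hc hab.2 (ih hab.2)

/-- extension of a cochain closed on `T` to a cochain closed on the plane -/
theorem extend (T : Finset (ℤ × ℤ)) (hT : ∀ c, c ∉ T → Free (T : Set (ℤ × ℤ)) c)
    (V H : ℤ → ℤ → ZMod 2) (hc : ∀ i j, (i, j) ∈ T → dd V H i j = 0) :
    ∃ V' H' : ℤ → ℤ → ZMod 2, (∀ i j, dd V' H' i j = 0) ∧ ∀ i j, (i, j) ∈ T →
      V' i j = V i j ∧ V' (i + 1) j = V (i + 1) j ∧ H' i j = H i j ∧ H' i (j + 1) = H i (j + 1) := by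
  classical
  -- cut off the cochain outside `T`
  set V0 : ℤ → ℤ → ZMod 2 := fun i j => if (i, j) ∈ T ∨ (i - 1, j) ∈ T then V i j else 0 with hV0
  set H0 : ℤ → ℤ → ZMod 2 := fun i j => if (i, j) ∈ T ∨ (i, j - 1) ∈ T then H i j else 0 with hH0
  have h0 : ∀ i j, (i, j) ∈ T → V0 i j = V i j ∧ V0 (i + 1) j = V (i + 1) j ∧ H0 i j = H i j ∧
      H0 i (j + 1) = H i (j + 1) := by
    intro i j hij
    refine ⟨if_pos (Or.inl hij), if_pos (Or.inr ?_), if_pos (Or.inl hij), if_pos (Or.inr ?_)⟩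
    · rwa [show i + 1 - 1 = i by ring]
    · rwa [show j + 1 - 1 = j by ring]
  -- the cells with a defect
  set N : Finset (ℤ × ℤ) := (T.biUnion fun c => {(c.1 + 1, c.2), (c.1 - 1, c.2), (c.1, c.2 + 1),
    (c.1, c.2 - 1)}).filter fun c => c ∉ T with hN
  have hdef : ∀ i j, (i, j) ∉ N → dd V0 H0 i j = 0 := by
    intro i j hij
    by_cases hT' : (i, j) ∈ T
    · obtain ⟨a1, a2, a3, a4⟩ := h0 i j hT'
      have := hc i j hT'
      unfold dd at this ⊢
      rw [a1, a2, a3, a4]; exact this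
    · have hno : ∀ c ∈ T, (i, j) ≠ (c.1 + 1, c.2) ∧ (i, j) ≠ (c.1 - 1, c.2) ∧
          (i, j) ≠ (c.1, c.2 + 1) ∧ (i, j) ≠ (c.1, c.2 - 1) := by
        intro c hcT
        refine ⟨?_, ?_, ?_, ?_⟩ <;> intro e <;> apply hij <;> rw [hN, Finset.mem_filter] <;>
          refine ⟨Finset.mem_biUnion.2 ⟨c, hcT, ?_⟩, hT'⟩ <;> rw [e] <;> simp
      have n1 : (i - 1, j) ∉ T := fun h => (hno _ h).1 (by simp)
      have n2 : (i + 1, j) ∉ T := fun h => (hno _ h).2.1 (by simp)
      have n3 : (i, j - 1) ∉ T := fun h => (hno _ h).2.2.1 (by simp)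
      have n4 : (i, j + 1) ∉ T := fun h => (hno _ h).2.2.2 (by simp)
      unfold dd
      simp only [hV0, hH0]
      rw [if_neg (by tauto), if_neg, if_neg (by tauto), if_neg]
      · simp
      · rw [show j + 1 - 1 = j by ring]; tauto
      · rw [show i + 1 - 1 = i by ring]; tauto
  have hray : ∀ c : ℤ × ℤ, ∃ p : (ℤ → ℤ → ZMod 2) × (ℤ → ℤ → ZMod 2), c ∉ T →
      Off (T : Set (ℤ × ℤ)) p.1 p.2 ∧ ∀ i j, dd p.1 p.2 i j = if (i, j) = c then 1 else 0 := by
    intro c
    by_cases hcT : c ∈ T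
    · exact ⟨(0, 0), fun h => absurd hcT h⟩
    · obtain ⟨V1, H1, h1, h2⟩ := ray_of_free (T := (T : Set (ℤ × ℤ))) (by simpa using hcT) (hT c hcT)
      exact ⟨(V1, H1), fun _ => ⟨h1, h2⟩⟩
  choose p hp using hray
  refine ⟨fun i j => V0 i j + ∑ c ∈ N, dd V0 H0 c.1 c.2 * (p c).1 i j,
    fun i j => H0 i j + ∑ c ∈ N, dd V0 H0 c.1 c.2 * (p c).2 i j, fun i j => ?_, fun i j hij => ?_⟩
  · have hsum : dd (fun i j => V0 i j + ∑ c ∈ N, dd V0 H0 c.1 c.2 * (p c).1 i j)
        (fun i j => H0 i j + ∑ c ∈ N, dd V0 H0 c.1 c.2 * (p c).2 i j) i j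
        = dd V0 H0 i j + ∑ c ∈ N, dd V0 H0 c.1 c.2 * dd (p c).1 (p c).2 i j := by
      have : ∑ c ∈ N, dd V0 H0 c.1 c.2 * dd (p c).1 (p c).2 i j =
          ∑ c ∈ N, dd V0 H0 c.1 c.2 * (p c).1 i j + ∑ c ∈ N, dd V0 H0 c.1 c.2 * (p c).1 (i + 1) j +
          ∑ c ∈ N, dd V0 H0 c.1 c.2 * (p c).2 i j +
          ∑ c ∈ N, dd V0 H0 c.1 c.2 * (p c).2 i (j + 1) := by
        rw [← Finset.sum_add_distrib, ← Finset.sum_add_distrib, ← Finset.sum_add_distrib]
        refine Finset.sum_congr rfl fun c _ => ?_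
        unfold dd; ring
      rw [this]
      generalize (fun c : ℤ × ℤ => dd V0 H0 c.1 c.2) = g
      simp only [dd]
      ring
    rw [hsum]
    have h1 : ∑ c ∈ N, dd V0 H0 c.1 c.2 * dd (p c).1 (p c).2 i j =
        ∑ c ∈ N, if (i, j) = c then dd V0 H0 c.1 c.2 else 0 := by
      refine Finset.sum_congr rfl fun c hcN => ?_
      have hcT : c ∉ T := (Finset.mem_filter.1 hcN).2
      rw [(hp c hcT).2 i j]
      split_ifs <;> simp
    rw [h1, Finset.sum_ite_eq]
    by_cases hij : (i, j) ∈ N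
    · rw [if_pos hij]; exact z2_add_self _
    · rw [if_neg hij, hdef i j hij, add_zero]
  · obtain ⟨a1, a2, a3, a4⟩ := h0 i j hij
    have hz : ∀ c ∈ N, (p c).1 i j = 0 ∧ (p c).1 (i + 1) j = 0 ∧ (p c).2 i j = 0 ∧
        (p c).2 i (j + 1) = 0 := fun c hcN =>
      (hp c (Finset.mem_filter.1 hcN).2).1 i j (by simpa using hij)
    refine ⟨?_, ?_, ?_, ?_⟩
    · show V0 i j + _ = _
      rw [Finset.sum_eq_zero fun c hcN => by rw [(hz c hcN).1, mul_zero], add_zero, a1]
    · show V0 (i + 1) j + _ = _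
      rw [Finset.sum_eq_zero fun c hcN => by rw [(hz c hcN).2.1, mul_zero], add_zero, a2]
    · show H0 i j + _ = _
      rw [Finset.sum_eq_zero fun c hcN => by rw [(hz c hcN).2.2.1, mul_zero], add_zero, a3]
    · show H0 i (j + 1) + _ = _
      rw [Finset.sum_eq_zero fun c hcN => by rw [(hz c hcN).2.2.2, mul_zero], add_zero, a4]

/-- a cochain closed on `T` is exact on `T` -/
theorem exact_on (T : Finset (ℤ × ℤ)) (hT : ∀ c, c ∉ T → Free (T : Set (ℤ × ℤ)) c)
    (V H : ℤ → ℤ → ZMod 2) (hc : ∀ i j, (i, j) ∈ T → dd V H i j = 0) :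
    ∃ F : ℤ → ℤ → ZMod 2, ∀ i j, (i, j) ∈ T →
      F (i + 1) j = F i j + H i j ∧ F (i + 1) (j + 1) = F i (j + 1) + H i (j + 1) ∧
      F i (j + 1) = F i j + V i j ∧ F (i + 1) (j + 1) = F (i + 1) j + V (i + 1) j := by
  obtain ⟨V', H', hcl, heq⟩ := extend T hT V H hc
  obtain ⟨F, hF1, hF2⟩ := exact V' H' hcl
  refine ⟨F, fun i j hij => ?_⟩
  obtain ⟨a1, a2, a3, a4⟩ := heq i j hij
  exact ⟨by rw [hF1, a3], by rw [hF1, a4], by rw [hF2, a1], by rw [hF2, a2]⟩

end Full.Disc
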