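import Pool.Agent.Full.Disc.Plane
import Pool.Agent.Full.Disc.Next

/-!
# Plane regions with connected complement are simply connected

`IsPlane S`: the tiles are the cells of `ℤ × ℤ` with the usual neighbours.
`sc_plane`: if every cell outside `T` can be joined to infinity outside `T`, then `SC T (S.glue T)`.
-/

set_option autoImplicit false

namespace Full
open Function Relation

/-- the plane -/
structure IsPlane (S : Surf (ℤ × ℤ)) : Prop where
  r : ∀ t : ℤ × ℤ, S.r t = some (t.1 + 1, t.2)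
  u : ∀ t : ℤ × ℤ, S.u t = some (t.1, t.2 + 1)

namespace IsPlane
variable {S : Surf (ℤ × ℤ)} (hS : IsPlane S) {T : Finset (ℤ × ℤ)}
include hS

theorem nbE (t : ℤ × ℤ) : S.nb .E t = some (t.1 + 1, t.2) := hS.r t

theorem nbN (t : ℤ × ℤ) : S.nb .N t = some (t.1, t.2 + 1) := hS.u t

theorem nbW (t : ℤ × ℤ) : S.nb .W t = some (t.1 - 1, t.2) := by
  have h : t ∈ S.nb .E (t.1 - 1, t.2) := by
    rw [hS.nbE, Option.mem_some_iff]
    ext <;> simp
  exact Surf.mem_nb.1 h

theorem nbS (t : ℤ × ℤ) : S.nb .S t = some (t.1, t.2 - 1) := by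
  have h : t ∈ S.nb .N (t.1, t.2 - 1) := by
    rw [hS.nbN, Option.mem_some_iff]
    ext <;> simp
  exact Surf.mem_nb.1 h

theorem glueE (i j : ℤ) : S.glue T ((i, j), .E) =
    if (i, j) ∈ T ∧ (i + 1, j) ∈ T then ((i + 1, j), .W) else ((i, j), .E) := by
  unfold Surf.glue
  rw [hS.nbE]
  rfl

theorem glueN (i j : ℤ) : S.glue T ((i, j), .N) =
    if (i, j) ∈ T ∧ (i, j + 1) ∈ T then ((i, j + 1), .S) else ((i, j), .N) := by
  unfold Surf.glue
  rw [hS.nbN]
  rfl

theorem glueW (i j : ℤ) : S.glue T ((i, j), .W) =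
    if (i, j) ∈ T ∧ (i - 1, j) ∈ T then ((i - 1, j), .E) else ((i, j), .W) := by
  unfold Surf.glue
  rw [hS.nbW]
  rfl

theorem glueS (i j : ℤ) : S.glue T ((i, j), .S) =
    if (i, j) ∈ T ∧ (i, j - 1) ∈ T then ((i, j - 1), .N) else ((i, j), .S) := by
  unfold Surf.glue
  rw [hS.nbS]
  rfl

/-- a plane region with connected complement is simply connected -/
theorem sc (hT : ∀ c, c ∉ T → Disc.Free (T : Set (ℤ × ℤ)) c) : SC T (S.glue T) := by
  classical
  intro χ h1 h2
  set V : ℤ → ℤ → ZMod 2 := fun i j =>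
    if (i, j) ∈ T then χ ((i, j), .W) else χ ((i - 1, j), .E) with hV
  set H : ℤ → ℤ → ZMod 2 := fun i j =>
    if (i, j) ∈ T then χ ((i, j), .S) else χ ((i, j - 1), .N) with hH
  have v0 : ∀ i j, (i, j) ∈ T → V i j = χ ((i, j), .W) := fun i j h => if_pos h
  have v1 : ∀ i j, (i, j) ∈ T → V (i + 1) j = χ ((i, j), .E) := by
    intro i j h
    simp only [hV]
    by_cases h' : (i + 1, j) ∈ T
    · rw [if_pos h']
      have := h1 ((i, j), .E)
      rw [hS.glueE, if_pos ⟨h, h'⟩] at this
      exact this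
    · rw [if_neg h', show i + 1 - 1 = i by ring]
  have w0 : ∀ i j, (i, j) ∈ T → H i j = χ ((i, j), .S) := fun i j h => if_pos h
  have w1 : ∀ i j, (i, j) ∈ T → H i (j + 1) = χ ((i, j), .N) := by
    intro i j h
    simp only [hH]
    by_cases h' : (i, j + 1) ∈ T
    · rw [if_pos h']
      have := h1 ((i, j), .N)
      rw [hS.glueN, if_pos ⟨h, h'⟩] at this
      exact this
    · rw [if_neg h', show j + 1 - 1 = j by ring]
  obtain ⟨F, hF⟩ := Disc.exact_on T hT V H fun i j h => by
    have h3 := h2 (i, j) h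
    rw [Dir.sum_dir] at h3
    unfold Disc.dd
    rw [v0 i j h, v1 i j h, w0 i j h, w1 i j h]
    linear_combination h3
  refine ⟨fun x => match x with
    | ((i, j), .E) => F (i + 1) j
    | ((i, j), .N) => F (i + 1) (j + 1)
    | ((i, j), .W) => F i (j + 1)
    | ((i, j), .S) => F i j, ?_, ?_⟩
  · rintro ⟨⟨i, j⟩, d⟩ hx
    cases d
    · rw [hS.glueE] at hx ⊢
      split_ifs at hx ⊢ with h
      · rfl
      · exact absurd rfl hx
    · rw [hS.glueN] at hx ⊢
      split_ifs at hx ⊢ with h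
      · rfl
      · exact absurd rfl hx
    · rw [hS.glueW] at hx ⊢
      split_ifs at hx ⊢ with h
      · show F (i - 1 + 1) j = F i j
        rw [show i - 1 + 1 = i by ring]
      · exact absurd rfl hx
    · rw [hS.glueS] at hx ⊢
      split_ifs at hx ⊢ with h
      · show F (i + 1) (j - 1 + 1) = F (i + 1) j
        rw [show j - 1 + 1 = j by ring]
      · exact absurd rfl hx
  · rintro ⟨⟨i, j⟩, d⟩ hx
    obtain ⟨f1, f2, f3, f4⟩ := hF i j hx
    rw [w0 i j hx] at f1
    rw [w1 i j hx] at f2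
    rw [v0 i j hx] at f3
    rw [v1 i j hx] at f4
    have a := CharTwo.add_self_eq_zero (χ ((i, j), .N))
    have b := CharTwo.add_self_eq_zero (χ ((i, j), .W))
    cases d
    · show F (i + 1) (j + 1) = F (i + 1) j + χ ((i, j), .E)
      exact f4
    · show F i (j + 1) = F (i + 1) (j + 1) + χ ((i, j), .N)
      linear_combination -f2 + -a
    · show F i j = F i (j + 1) + χ ((i, j), .W)
      linear_combination -f3 + -b
    · show F (i + 1) j = F i j + χ ((i, j), .S)
      exact f1

end IsPlane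

end Full
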