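import Pool.Agent.Full.Disc.Next
import Pool.Agent.Full.Def.SCz

/-!
# Cutting simply connected regions

* `cutEdge g x0` : the sides `x0` and `g x0` are no longer glued;
* `Glu.sc_slit` : if the tail of `x0` lies on the boundary, the cut region is simply connected;
* `Glu.sc_cut` : a cut which separates a simply connected region into parts, each of which keeps a
  boundary side of the region, gives simply connected parts.
-/

set_option autoImplicit false

namespace Full
open Function Relation

variable {τ : Type*} {T : Finset τ} {g g' : Half τ → Half τ}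

/-! ### one edge -/

open Classical in
/-- cut the region along the side `x0` -/
noncomputable def cutEdge (g : Half τ → Half τ) (x0 : Half τ) (x : Half τ) : Half τ :=
  if x = x0 ∨ x = g x0 then x else g x

lemma cutEdge_self {x0 : Half τ} : cutEdge g x0 x0 = x0 := by
  unfold cutEdge
  rw [if_pos (Or.inl rfl)]

lemma cutEdge_other {x0 : Half τ} : cutEdge g x0 (g x0) = g x0 := by
  unfold cutEdge
  rw [if_pos (Or.inr rfl)]

lemma cutEdge_of_ne {x0 x : Half τ} (h : x ≠ x0) (h' : x ≠ g x0) : cutEdge g x0 x = g x := by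
  unfold cutEdge
  rw [if_neg]
  rintro (h1 | h1)
  · exact h h1
  · exact h' h1

lemma cutEdge_cases {x0 : Half τ} (x : Half τ) : cutEdge g x0 x = x ∨ cutEdge g x0 x = g x := by
  unfold cutEdge
  split_ifs
  · exact Or.inl rfl
  · exact Or.inr rfl

lemma cutEdge_ne {x0 x : Half τ} (h : cutEdge g x0 x ≠ x) : cutEdge g x0 x = g x ∧ x ≠ x0 ∧ x ≠ g x0 := by
  refine ⟨(cutEdge_cases x).resolve_left h, ?_, ?_⟩
  · rintro rfl; exact h cutEdge_self
  · rintro rfl; exact h cutEdge_other

namespace Glu
variable (hG : Glu T g)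
include hG

theorem glu_cutEdge (x0 : Half τ) : Glu T (cutEdge g x0) := by
  refine ⟨fun x => ?_, fun x hx => ?_, fun x hx => ?_⟩
  · by_cases h : cutEdge g x0 x = x
    · rw [h, h]
    · obtain ⟨h1, h2, h3⟩ := cutEdge_ne h
      rw [h1, cutEdge_of_ne, hG.inv]
      · intro h4; apply h3; rw [← h4, hG.inv]
      · intro h4; exact h2 (hG.inj h4)
  · rcases cutEdge_cases (g := g) (x0 := x0) x with h | h
    · rw [h]; exact hx
    · rw [h]; exact hG.mem x hx
  · rcases cutEdge_cases (g := g) (x0 := x0) x with h | h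
    · exact h
    · rw [h]; exact hG.out x hx

theorem ext_cutEdge (x0 : Half τ) : Ext T (cutEdge g x0) g :=
  ⟨hG, fun _ hx => (cutEdge_ne hx).1.symm⟩

/-- **slits**: cutting a side whose tail lies on the boundary keeps the region simply connected -/
theorem sc_slit (hS : SC T g) {x0 : Half τ} (h0 : g x0 ≠ x0)
    (hb : ∃ k, g ((rot g)^[k] x0) = (rot g)^[k] x0) : SC T (cutEdge g x0) := by
  classical
  -- the fan of the tail of `x0`, behind `x0`
  have hb' : ∃ k, 1 ≤ k ∧ g ((rot g)^[k] x0) = (rot g)^[k] x0 := by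
    obtain ⟨k, hk⟩ := hb
    rcases Nat.eq_zero_or_pos k with rfl | h
    · exact absurd hk h0
    · exact ⟨k, h, hk⟩
  set K := Nat.find hb' with hK
  obtain ⟨hK1, hK2⟩ := Nat.find_spec hb'
  have hmin : ∀ j, 1 ≤ j → j < K → g ((rot g)^[j] x0) ≠ (rot g)^[j] x0 := fun j h1 h2 h3 =>
    Nat.find_min hb' h2 ⟨h1, h3⟩
  set F : Half τ → Prop := fun w => ∃ k, 1 ≤ k ∧ k ≤ K ∧ w = (rot g)^[k] x0 with hF
  have hx0 : ¬ F x0 := by
    rintro ⟨k, h1, h2, h3⟩
    rcases Nat.lt_or_ge k K with h4 | h4
    · have h5 : (rot g)^[K] x0 = (rot g)^[K - k] x0 := by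
        conv_rhs => rw [h3]
        rw [← iterate_add_apply, show K - k + k = K by omega]
      rw [h5] at hK2
      exact hmin _ (by omega) (by omega) hK2
    · have h5 : k = K := le_antisymm h2 h4
      rw [h5] at h3
      rw [← h3] at hK2
      exact h0 hK2
  have hrot : ∀ w, g w ≠ w → w ≠ x0 → (F (rot g w) ↔ F w) := by
    intro w hw hw0
    constructor
    · rintro ⟨k, h1, h2, h3⟩
      obtain ⟨k, rfl⟩ : ∃ j, k = j + 1 := ⟨k - 1, by omega⟩
      rw [iterate_succ_apply'] at h3
      have h4 := hG.rot_inj h3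
      rcases Nat.eq_zero_or_pos k with rfl | h5
      · exact absurd h4 hw0
      · exact ⟨k, h5, by omega, h4⟩
    · rintro ⟨k, h1, h2, rfl⟩
      have h3 : k < K := by
        refine lt_of_le_of_ne h2 ?_
        rintro rfl
        exact hw hK2
      exact ⟨k + 1, by omega, h3, by rw [iterate_succ_apply']⟩
  set ν : Half τ → ZMod 2 := fun x => if F x then 1 else 0 with hν
  have hrot' : ∀ w, g w ≠ w → w ≠ x0 → ν (rot g w) = ν w := fun w h1 h2 => by
    simp only [hν, hrot w h1 h2]
  have hνc : Corner (cutEdge g x0) ν := by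
    intro z hz
    obtain ⟨h1, h2, h3⟩ := cutEdge_ne hz
    rw [h1] at hz ⊢
    have h4 : g (g z) ≠ g z := by rw [hG.inv]; exact Ne.symm hz
    have h5 : g z ≠ x0 := by
      intro h6; apply h3; rw [← h6, hG.inv]
    have h6 := hrot' (g z) h4 h5
    have h7 : rot g (g z) = rho z := by unfold rot; rw [hG.inv]
    rw [h7] at h6
    exact h6.symm
  -- the coboundary of `ν` distinguishes the two sides of the cut
  set η : Half τ → ZMod 2 := fun x => ν (rho x) - ν x with hη
  have hη1 : η (g x0) = η x0 + 1 := by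
    have h1 : ν x0 = 0 := if_neg hx0
    have h2 : ν (rho (g x0)) = 1 := by
      refine if_pos ⟨1, le_rfl, hK1, rfl⟩
    have h3 : ν (rho x0) = ν (g x0) := by
      have h4 : g (g x0) ≠ g x0 := by rw [hG.inv]; exact Ne.symm h0
      have h5 := hrot' (g x0) h4 h0
      have h6 : rot g (g x0) = rho x0 := by unfold rot; rw [hG.inv]
      rwa [h6] at h5
    simp only [hη]
    rw [h1, h2, h3]
    have := CharTwo.add_self_eq_zero (ν (g x0))
    linear_combination -this
  have hη2 : ∀ z, z ≠ x0 → z ≠ g x0 → η (g z) = η z := by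
    intro z h1 h2
    by_cases hz : g z = z
    · rw [hz]
    have h3 : cutEdge g x0 z = g z := cutEdge_of_ne h1 h2
    have h4 := hνc z (by rw [h3]; exact hz)
    have h5 : cutEdge g x0 (g z) = z := by
      rw [cutEdge_of_ne, hG.inv]
      · intro h4; apply h2; rw [← h4, hG.inv]
      · intro h4; exact h1 (hG.inj h4)
    have h6 := hνc (g z) (by rw [h5]; exact Ne.symm hz)
    rw [h3] at h4
    rw [h5] at h6
    simp only [hη]
    rw [h4, ← h6]
    have a1 := CharTwo.add_self_eq_zero (ν z)
    have a2 := CharTwo.add_self_eq_zero (ν (rho z))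
    linear_combination a1 - a2
  have hη3 : ∀ t : τ, ∑ d, η (t, d) = 0 := by
    intro t
    rw [Dir.sum_dir]
    show ν (t, .N) - ν (t, .E) + (ν (t, .W) - ν (t, .N) + (ν (t, .S) - ν (t, .W) +
      (ν (t, .E) - ν (t, .S)))) = 0
    ring
  intro χ h1 h2
  -- restrict to `g` invariant cochains
  have key : ∀ χ' : Half τ → ZMod 2, (∀ x, χ' (g x) = χ' x) → (∀ t ∈ T, ∑ d, χ' (t, d) = 0) →
      ∃ c : Half τ → ZMod 2, Corner (cutEdge g x0) c ∧ ∀ x : Half τ, x.1 ∈ T → c (rho x) = c x + χ' x := by
    intro χ' e1 e2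
    obtain ⟨c, hc, hc'⟩ := hS χ' e1 e2
    refine ⟨c, fun x hx => ?_, hc'⟩
    obtain ⟨e3, -, -⟩ := cutEdge_ne hx
    rw [e3] at hx ⊢
    exact hc x hx
  by_cases hd : χ (g x0) = χ x0
  · refine key χ (fun x => ?_) h2
    by_cases e1 : x = x0
    · rw [e1, hd]
    by_cases e2 : x = g x0
    · rw [e2, hG.inv, hd]
    · have := h1 x
      rwa [cutEdge_of_ne e1 e2] at this
  · have hd' : χ (g x0) = χ x0 + 1 := by
      have : ∀ a b : ZMod 2, a ≠ b → a = b + 1 := by decide
      exact this _ _ hd
    have f1 : ∀ x, χ (g x) - η (g x) = χ x - η x := by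
      intro x
      by_cases e1 : x = x0
      · rw [e1, hd', hη1]; ring
      by_cases e2 : x = g x0
      · rw [e2, hG.inv, hd', hη1]; ring
      · have := h1 x
        rw [cutEdge_of_ne e1 e2] at this
        rw [this, hη2 x e1 e2]
    have f2 : ∀ t ∈ T, ∑ d, (χ (t, d) - η (t, d)) = 0 := by
      intro t ht
      rw [Finset.sum_sub_distrib, h2 t ht, hη3 t, sub_zero]
    obtain ⟨c, hc, hc'⟩ := key (fun x => χ x - η x) f1 f2
    refine ⟨fun x => c x + ν x, fun x hx => ?_, fun x hx => ?_⟩
    · show c _ + ν _ = c _ + ν _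
      rw [hc x hx, hνc x hx]
    · show c (rho x) + ν (rho x) = c x + ν x + χ x
      rw [hc' x hx]
      simp only [hη]
      ring

/-! ### separating cuts -/

/-- a closed cochain with the only value at `x` among the cut sides -/
theorem chain_to [DecidableEq τ] {x y : Half τ} (hx : g x = x) (hy : g y = y)
    (h : TConn T g x.1 y.1) : ∃ ψ : Half τ → ZMod 2, (∀ z, ψ (g z) = ψ z) ∧
      (∀ z, g z = z → ψ z = (if z = x then 1 else 0) + if z = y then 1 else 0) ∧
      ∀ t, ∑ d, ψ (t, d) = 0 := by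
  obtain ⟨χ, h1, h2, h3⟩ := hG.chain h
  have e : ∀ w : Half τ, g w = w → ∀ z, (g z = w) = (z = w) := by
    intro w hw z
    apply propext
    constructor
    · intro h; rw [← hG.inv z, h, hw]
    · rintro rfl; exact hw
  refine ⟨fun z => χ z + ((if z = x then 1 else 0) + if z = y then 1 else 0), fun z => ?_,
    fun z hz => ?_, fun t => ?_⟩
  · simp only [h1, e x hx, e y hy]
  · simp only [h2 z hz, zero_add]
  · have s : ∀ z : Half τ, ∑ d', (if ((t, d') : Half τ) = z then (1 : ZMod 2) else 0)
        = if t = z.1 then 1 else 0 := by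
      rintro ⟨s, d⟩
      by_cases hts : t = s
      · subst hts
        rw [if_pos rfl]
        have : ∀ d', ((t, d') : Half τ) = (t, d) ↔ d' = d := fun d' => by simp
        simp only [this, Finset.sum_ite_eq', Finset.mem_univ, if_true]
      · rw [if_neg hts]
        refine Finset.sum_eq_zero fun d' _ => ?_
        rw [if_neg]
        rintro h; exact hts (congrArg Prod.fst h)
    rw [Finset.sum_add_distrib, Finset.sum_add_distrib, h3 t, s x, s y]
    exact CharTwo.add_self_eq_zero _

/-- **separating cuts** -/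
theorem sc_cut (hG' : Glu T g') (hext : ∀ x, g' x ≠ x → g x = g' x)
    (hsep : ∀ x, g' x = x → g x ≠ x → ¬ TConn T g' x.1 (g x).1)
    (hbd : ∀ t ∈ T, ∃ y, Bd T g y ∧ TConn T g' t y.1) (hS : SC T g) : SC T g' := by
  classical
  intro χ h1 h2
  have hfix : ∀ x, g x = x → g' x = x := by
    intro x hx
    by_contra hne
    have := hext x hne
    rw [hx] at this
    exact hne this.symm
  have hfix' : ∀ x, g' x = x → g' (g x) = g x := by
    intro x hx
    by_contra hne
    have h3 := hext _ hne
    rw [hG.inv] at h3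
    have h4 := congrArg g' h3
    rw [hG'.inv, hx] at h4
    rw [← h4] at hne
    exact hne hx
  -- the cochain for one component
  have main : ∀ a : τ, ∃ c : Half τ → ZMod 2, Corner g' c ∧
      ∀ x : Half τ, x.1 ∈ T → TConn T g' a x.1 → c (rho x) = c x + χ x := by
    intro a
    have hbd' : ∀ k : Half τ, ∃ ψ : Half τ → ZMod 2, k.1 ∈ T → g' k = k →
        (∀ z, ψ (g' z) = ψ z) ∧ (∀ z, g' z = z → g z ≠ z → ψ z = if z = k then 1 else 0) ∧
        ∀ t, ∑ d, ψ (t, d) = 0 := by
      intro k
      by_cases hk : k.1 ∈ T ∧ g' k = k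
      · obtain ⟨y, hy, hky⟩ := hbd k.1 hk.1
        obtain ⟨ψ, e1, e2, e3⟩ := hG'.chain_to hk.2 (hfix y hy.2) hky
        refine ⟨ψ, fun _ _ => ⟨e1, fun z hz hz' => ?_, e3⟩⟩
        rw [e2 z hz, if_neg (show ¬ z = y by rintro rfl; exact hz' hy.2), add_zero]
      · exact ⟨fun _ => 0, fun h3 h4 => absurd ⟨h3, h4⟩ hk⟩
    choose ψ hψ using hbd'
    set A : τ → Prop := fun t => TConn T g' a t with hA
    have hAg : ∀ x : Half τ, A (g' x).1 ↔ A x.1 := fun x => by
      constructor
      · intro h3; exact h3.trans (hG'.tconn_symm (hG'.tconn_glue x))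
      · intro h3; exact h3.trans (hG'.tconn_glue x)
    set I : Finset (Half τ) := (T ×ˢ (Finset.univ : Finset Dir)).filter fun k =>
      g' k = k ∧ ¬ A k.1 ∧ A (g k).1 with hI
    have hmemI : ∀ k, k ∈ I ↔ k.1 ∈ T ∧ g' k = k ∧ ¬ A k.1 ∧ A (g k).1 := by
      intro k
      rw [hI, Finset.mem_filter, Finset.mem_product]
      simp
    set χA : Half τ → ZMod 2 := fun x => if A x.1 then χ x else ∑ k ∈ I, χ (g k) * ψ k x with hχA
    have c1 : ∀ x, χA (g x) = χA x := by
      intro x
      by_cases hx : g x = x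
      · rw [hx]
      by_cases hx' : g' x = x
      · have hxT : x.1 ∈ T := by
          by_contra hxT; exact hx (hG.out x hxT)
        have hgT : (g x).1 ∈ T := hG.mem x hxT
        have hgx' := hfix' x hx'
        have hgx : g (g x) ≠ g x := by rw [hG.inv]; exact Ne.symm hx
        have hval : ∀ z, g' z = z → g z ≠ z → z.1 ∈ T → ¬ A z.1 → ∑ k ∈ I, χ (g k) * ψ k z =
            if A (g z).1 then χ (g z) else 0 := by
          intro z hz hz' hzT hzA
          have e1 : ∀ k ∈ I, χ (g k) * ψ k z = if z = k then χ (g k) else 0 := by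
            intro k hk
            obtain ⟨k1, k2, -, -⟩ := (hmemI k).1 hk
            rw [(hψ k k1 k2).2.1 z hz hz']
            split_ifs <;> simp
          rw [Finset.sum_congr rfl e1, Finset.sum_ite_eq]
          by_cases hgz : A (g z).1
          · rw [if_pos ((hmemI z).2 ⟨hzT, hz, hzA, hgz⟩), if_pos hgz]
          · rw [if_neg (fun h => hgz ((hmemI z).1 h).2.2.2), if_neg hgz]
        have hnot : ¬ (A x.1 ∧ A (g x).1) := by
          rintro ⟨a1, a2⟩
          exact hsep x hx' hx ((hG'.tconn_symm a1).trans a2)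
        by_cases hAx : A x.1
        · have hAg2 : ¬ A (g x).1 := fun h3 => hnot ⟨hAx, h3⟩
          simp only [hχA]
          rw [if_neg hAg2, if_pos hAx, hval (g x) hgx' hgx hgT hAg2, hG.inv, if_pos hAx]
        · by_cases hAg3 : A (g x).1
          · simp only [hχA]
            rw [if_pos hAg3, if_neg hAx, hval x hx' hx hxT hAx, if_pos hAg3]
          · simp only [hχA]
            rw [if_neg hAg3, if_neg hAx, hval x hx' hx hxT hAx, if_neg hAg3,
              hval (g x) hgx' hgx hgT hAg3, hG.inv, if_neg hAx]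
      · rw [hext x hx']
        simp only [hχA]
        by_cases hAx : A x.1
        · rw [if_pos hAx, if_pos ((hAg x).2 hAx), h1]
        · rw [if_neg hAx, if_neg (fun h3 => hAx ((hAg x).1 h3))]
          refine Finset.sum_congr rfl fun k hk => ?_
          obtain ⟨k1, k2, -, -⟩ := (hmemI k).1 hk
          rw [(hψ k k1 k2).1]
    have c2 : ∀ t ∈ T, ∑ d, χA (t, d) = 0 := by
      intro t ht
      by_cases hAt : A t
      · simp only [hχA, if_pos hAt]
        exact h2 t ht
      · simp only [hχA, if_neg hAt]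
        rw [Finset.sum_comm]
        refine Finset.sum_eq_zero fun k hk => ?_
        obtain ⟨k1, k2, -, -⟩ := (hmemI k).1 hk
        rw [← Finset.mul_sum, (hψ k k1 k2).2.2 t, mul_zero]
    obtain ⟨c, hc1, hc2⟩ := hS χA c1 c2
    refine ⟨c, fun x hx => ?_, fun x hx hAx => ?_⟩
    · have h3 := hext x hx
      rw [← h3] at hx ⊢
      exact hc1 x hx
    · rw [hc2 x hx]
      simp only [hχA, if_pos (show A x.1 from hAx)]
  choose c hc1 hc2 using main
  -- one representative for each component
  have hrep : ∃ r : τ → τ, (∀ t, TConn T g' (r t) t) ∧ ∀ s t, TConn T g' s t → r s = r t := by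
    let S : Setoid τ := ⟨TConn T g', ⟨fun _ => ReflTransGen.refl, fun h => hG'.tconn_symm h,
      fun h h' => h.trans h'⟩⟩
    refine ⟨fun t => (Quotient.mk S t).out, fun t => ?_, fun s t h => ?_⟩
    · exact Quotient.mk_out (s := S) t
    · show (Quotient.mk S s).out = (Quotient.mk S t).out
      rw [Quotient.sound (s := S) h]
  obtain ⟨r, r1, r2⟩ := hrep
  refine ⟨fun x => c (r x.1) x, fun x hx => ?_, fun x hx => ?_⟩
  · show c (r (g' x).1) (g' x) = c (r x.1) (rho x)
    rw [← r2 _ _ (hG'.tconn_glue x)]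
    exact hc1 _ x hx
  · exact hc2 _ x hx (r1 x.1)

end Glu

end Full
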