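import Pool.Agent.Full.Disc.Next

/-!
# The tangle of a simply connected region is not crossing

For a boundary half edge `p` let `n` be the length of the cycle of `next g` through `p`.
* `Glu.side` : the side function of a strand: a mod 2 corner function which is constant along the other
  strands and changes along the boundary exactly at the two ends;
* `Glu.other_pos` : `other p = next^[k] p` for some `0 < k < n`;
* `Glu.noncross` : the boundary half edges strictly between `p` and `other p` are paired with each other.
-/

set_option autoImplicit false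

namespace Full
open Function Relation

variable {τ : Type*} [DecidableEq τ] {T : Finset τ} {g : Half τ → Half τ}

namespace Glu
variable (hG : Glu T g)
include hG

/-- the crossing cochain of a strand is closed -/
theorem cross_closed (ω : Finset τ) (p : Half τ) :
    ∃ χ : Half τ → ZMod 2, (∀ x, Conn (mate ω) g p x → χ x = 1) ∧
      (∀ x, ¬ Conn (mate ω) g p x → χ x = 0) ∧
      (∀ x, χ (g x) = χ x) ∧ (∀ x, χ (mate ω x) = χ x) ∧ ∀ t, ∑ d, χ (t, d) = 0 := by
  classical
  set C : Half τ → Prop := Conn (mate ω) g p with hC
  have hg : ∀ x, C (g x) ↔ C x := fun x => by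
    refine ⟨fun h => ?_, fun h => h.trans (Conn.g_step x)⟩
    have := h.trans (Conn.g_step (m := mate ω) (g x))
    rwa [hG.inv] at this
  have hm : ∀ x, C (mate ω x) ↔ C x := fun x => by
    refine ⟨fun h => ?_, fun h => h.trans (Conn.m_step x)⟩
    have := h.trans (Conn.m_step (g := g) (mate ω x))
    rwa [mate_mate] at this
  refine ⟨fun x => if C x then 1 else 0, fun x h => if_pos h, fun x h => if_neg h, fun x => ?_,
    fun x => ?_, fun t => ?_⟩
  · simp only [hg]
  · simp only [hm]
  · have h1 : ∀ d, C (t, Dir.mt (decide (t ∈ ω)) d) ↔ C (t, d) := fun d => hm (t, d)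
    rw [Dir.sum_dir]
    by_cases hb : t ∈ ω
    · have e1 := h1 Dir.S
      have e2 := h1 Dir.W
      simp only [hb, decide_true, Dir.mt] at e1 e2
      simp only [e1, e2]
      have a := CharTwo.add_self_eq_zero (if C (t, Dir.S) then (1 : ZMod 2) else 0)
      have b := CharTwo.add_self_eq_zero (if C (t, Dir.W) then (1 : ZMod 2) else 0)
      linear_combination a + b
    · have e1 := h1 Dir.S
      have e2 := h1 Dir.E
      simp only [hb, decide_false, Dir.mt] at e1 e2
      simp only [e1, e2]
      have a := CharTwo.add_self_eq_zero (if C (t, Dir.S) then (1 : ZMod 2) else 0)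
      have b := CharTwo.add_self_eq_zero (if C (t, Dir.E) then (1 : ZMod 2) else 0)
      linear_combination a + b

/-- **the side function of a strand** -/
theorem side (hS : SC T g) (ω : Finset τ) {p : Half τ} (hp : Bd T g p) :
    ∃ c : Half τ → ZMod 2, Corner g c ∧
      (∀ x : Half τ, x.1 ∈ T → ¬ Conn (mate ω) g p x → c (rho x) = c x) ∧
      (∀ x : Half τ, x.1 ∈ T → Conn (mate ω) g p x → c (rho x) = c x + 1) ∧
      (∀ x y : Half τ, x.1 ∈ T → ¬ Conn (mate ω) g p x → Conn (mate ω) g x y → c y = c x) ∧
      (∀ x, Bd T g x → c (next g x) =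
        c x + if x = p ∨ x = other (mate ω) g p then 1 else 0) := by
  classical
  obtain ⟨χ, h1, h2, h3, h4, h5⟩ := hG.cross_closed ω p
  obtain ⟨c, hc, hcr⟩ := hS χ h3 fun t _ => h5 t
  have r0 : ∀ x : Half τ, x.1 ∈ T → ¬ Conn (mate ω) g p x → c (rho x) = c x :=
    fun x hx hn => by rw [hcr x hx, h2 x hn, add_zero]
  have r1 : ∀ x : Half τ, x.1 ∈ T → Conn (mate ω) g p x → c (rho x) = c x + 1 :=
    fun x hx hn => by rw [hcr x hx, h1 x hn]
  refine ⟨c, hc, r0, r1, fun x y hx hn hxy => ?_, fun x hx => ?_⟩
  · have key : y.1 ∈ T ∧ ¬ Conn (mate ω) g p y ∧ c y = c x := by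
      induction hxy with
      | refl => exact ⟨hx, hn, rfl⟩
      | @tail y z _ hyz ih =>
        obtain ⟨i1, i2, i3⟩ := ih
        rcases hyz with rfl | rfl
        · have j2 : ¬ Conn (mate ω) g p (mate ω y) := fun h => i2 <| by
            have := h.trans (Conn.m_step (g := g) (mate ω y))
            rwa [mate_mate] at this
          refine ⟨i1, j2, ?_⟩
          rw [← i3]
          rcases mate_cases ω y with e | e
          · rw [e]; exact r0 y i1 i2
          · have h := r0 (mate ω y) i1 j2
            rw [e] at h; exact h.symm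
        · have j2 : ¬ Conn (mate ω) g p (g y) := fun h => i2 <| by
            have := h.trans (Conn.g_step (m := mate ω) (g y))
            rwa [hG.inv] at this
          refine ⟨hG.mem y i1, j2, ?_⟩
          rw [← i3]
          by_cases hg : g y = y
          · rw [hg]
          · rw [hc y hg]; exact r0 y i1 i2
    exact key.2.2
  · rw [hG.corner_next hc hx.2, hcr x hx.1]
    congr 1
    have := hG.conn_iff (ω := ω) hp hx
    by_cases h : Conn (mate ω) g p x
    · rw [h1 x h, if_pos (this.1 h)]
    · rw [h2 x h, if_neg (fun h' => h (this.2 h'))]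

/-- the other end of a strand lies on the same boundary cycle -/
theorem other_pos (hS : SC T g) (ω : Finset τ) {p : Half τ} (hp : Bd T g p) :
    ∃ k, 0 < k ∧ k < minimalPeriod (next g) p ∧ (next g)^[k] p = other (mate ω) g p := by
  obtain ⟨k, hk, h⟩ := hG.next_trans hS hp (hG.other_bd (ω := ω) hp) (hG.tconn_other ω p)
  refine ⟨k, ?_, hk, h⟩
  rcases Nat.eq_zero_or_pos k with rfl | h0
  · exact absurd h.symm (hG.other_ne hp)
  · exact h0

/-- **the tangle is not crossing** -/
theorem noncross (hS : SC T g) {ω : Finset τ} {p : Half τ} (hp : Bd T g p) {k i : ℕ}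
    (hk : k < minimalPeriod (next g) p) (hkp : (next g)^[k] p = other (mate ω) g p)
    (hi0 : 0 < i) (hik : i < k) :
    ∃ j, 0 < j ∧ j < k ∧ (next g)^[j] p = other (mate ω) g ((next g)^[i] p) := by
  classical
  obtain ⟨c, -, -, -, h4, h5⟩ := hG.side hS ω hp
  set n := minimalPeriod (next g) p with hn
  set q := other (mate ω) g p with hq
  have hinj : ∀ i j, i < n → j < n → (next g)^[i] p = (next g)^[j] p → i = j := by
    intro i j hi hj h
    exact (iterate_injOn_Iio_minimalPeriod (f := next g) (x := p)) hi hj h
  -- values of the side function along the boundary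
  have hv1 : ∀ i, 0 < i → i ≤ k → c ((next g)^[i] p) = c p + 1 := by
    intro i hi0 hik
    induction i, hi0 using Nat.le_induction with
    | base =>
      rw [show (next g)^[1] p = next g p from rfl, h5 p hp, if_pos (Or.inl rfl)]
    | succ i hi ih =>
      rw [iterate_succ_apply', h5 _ (hG.bd_iter hp i), ih (by omega), if_neg, add_zero]
      rintro (h | h)
      · have := hinj i 0 (by omega) (by omega) h
        omega
      · have := hinj i k (by omega) hk (by rw [h, hkp])
        omega
  have hv2 : ∀ i, k < i → i < n → c ((next g)^[i] p) = c p := by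
    intro i hki hin
    induction i, hki using Nat.le_induction with
    | base =>
      have hkpos : 0 < k := by omega
      rw [iterate_succ_apply', h5 _ (hG.bd_iter hp k), hv1 k hkpos le_rfl, if_pos (Or.inr hkp),
        add_assoc, CharTwo.add_self_eq_zero, add_zero]
    | succ i hi ih =>
      rw [iterate_succ_apply', h5 _ (hG.bd_iter hp i), ih (by omega), if_neg, add_zero]
      rintro (h | h)
      · have := hinj i 0 (by omega) (by omega) h
        omega
      · have := hinj i k (by omega) hk (by rw [h, hkp])
        omega
  set x := (next g)^[i] p with hx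
  have hxb : Bd T g x := hG.bd_iter hp i
  have hxn : ¬ Conn (mate ω) g p x := by
    intro h
    rcases (hG.conn_iff hp hxb).1 h with h | h
    · have := hinj i 0 (by omega) (by omega) h; omega
    · have := hinj i k (by omega) hk (by rw [← hx, h, hkp]); omega
  obtain ⟨j, hj, hjx⟩ := hG.next_trans hS hp (hG.other_bd (ω := ω) hxb)
    ((hG.tconn_iter p i).trans (hG.tconn_other ω x))
  have hcx : c ((next g)^[j] p) = c p + 1 := by
    have h6 : c (other (mate ω) g x) = c x := h4 x _ hxb.1 hxn (Conn.iter _ _)
    rw [hjx, h6, hx, hv1 i hi0 hik.le]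
  have hne : c p ≠ c p + 1 := by
    intro h
    have : (1 : ZMod 2) = 0 := by linear_combination -h
    exact absurd this (by decide)
  have hj0 : 0 < j := by
    rcases Nat.eq_zero_or_pos j with rfl | h
    · exact absurd hcx hne
    · exact h
  have hjk : j ≤ k := by
    by_contra h
    rw [hv2 j (by omega) hj] at hcx
    exact hne hcx
  refine ⟨j, hj0, lt_of_le_of_ne hjk ?_, hjx⟩
  rintro rfl
  rw [hkp] at hjx
  -- `other p = other x` gives `p = x`
  have h1 := congrArg (other (mate ω) g) hjx
  rw [hq, hG.other_other hp, hG.other_other hxb] at h1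
  have := hinj 0 i (by omega) (by omega) h1
  omega

end Glu

end Full
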